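import Pool.Agent.MP_9c5a49_an.H23.Spec

/-!
Row APP: uniform approximation gives local dimension reduction (Gaussian Fourier features).
-/

set_option autoImplicit false

namespace Pool.Agent.MP_9c5a49_an.H23

open Finset MeasureTheory ProbabilityTheory
open scoped RealInnerProductSpace

namespace AppX

theorem integral_cos_stdGaussian {K : Type*} [NormedAddCommGroup K] [InnerProductSpace ℝ K]
    [FiniteDimensional ℝ K] [MeasurableSpace K] [BorelSpace K] (t : K) :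
    ∫ x, Real.cos ⟪x, t⟫ ∂(stdGaussian K) = Real.exp (-‖t‖ ^ 2 / 2) := by
  have h := charFun_stdGaussian t
  rw [charFun_apply] at h
  have hi : Integrable (fun x : K => Complex.exp ((⟪x, t⟫ : ℝ) * Complex.I)) (stdGaussian K) := by
    refine Integrable.of_bound (C := 1) (Continuous.aestronglyMeasurable (by fun_prop)) ?_
    exact Filter.Eventually.of_forall fun x => (Complex.norm_exp_ofReal_mul_I _).le
  have h2 := integral_re hi
  rw [h] at h2
  simp only [RCLike.re_to_complex, Complex.exp_ofReal_mul_I_re] at h2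
  rw [h2]
  have : (-(‖t‖ : ℂ) ^ 2 / 2) = ((-‖t‖ ^ 2 / 2 : ℝ) : ℂ) := by push_cast; ring
  rw [this, Complex.exp_ofReal_re]

theorem gauss {H : Type*} [NormedAddCommGroup H] [InnerProductSpace ℝ H] {ι : Type*}
    (E : Finset ι) (κ : ι → ℝ) (v : ι → H) :
    ∃ g : H, ∑ e ∈ E, κ e * (Real.cos ⟪g, v e⟫ - Real.exp (-‖v e‖ ^ 2 / 2)) ≤ 0 := by
  classical
  let K : Submodule ℝ H := Submodule.span ℝ (v '' (E : Set ι))
  have : FiniteDimensional ℝ K :=
    FiniteDimensional.span_of_finite ℝ (E.finite_toSet.image v)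
  let : MeasurableSpace K := borel K
  have : BorelSpace K := ⟨rfl⟩
  let v' : ι → K := fun e =>
    if h : e ∈ E then ⟨v e, Submodule.subset_span ⟨e, by simpa using h, rfl⟩⟩ else 0
  have hv' : ∀ e ∈ E, (v' e : H) = v e := fun e he => by simp [v', he]
  have hc : ∀ t : K, Integrable (fun x : K => Real.cos ⟪x, t⟫) (stdGaussian K) := fun t => by
    refine Integrable.of_bound (C := 1) (Continuous.aestronglyMeasurable (by fun_prop)) ?_
    exact Filter.Eventually.of_forall fun x => Real.abs_cos_le_one _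
  have hterm : ∀ e, Integrable (fun x : K =>
      κ e * (Real.cos ⟪x, v' e⟫ - Real.exp (-‖v' e‖ ^ 2 / 2))) (stdGaussian K) := fun e =>
    ((hc _).sub (integrable_const _)).const_mul _
  obtain ⟨x, hx⟩ := exists_le_integral (μ := stdGaussian K)
    (integrable_finsetSum E fun e _ => hterm e)
  rw [integral_finsetSum E fun e _ => hterm e] at hx
  have h0 : ∀ e, ∫ x : K, κ e * (Real.cos ⟪x, v' e⟫ - Real.exp (-‖v' e‖ ^ 2 / 2))
      ∂(stdGaussian K) = 0 := fun e => by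
    rw [integral_const_mul, integral_sub (hc _) (integrable_const _), integral_cos_stdGaussian]
    simp
  simp only [h0, Finset.sum_const_zero] at hx
  refine ⟨x, le_of_eq_of_le (Finset.sum_congr rfl fun e he => ?_) hx⟩
  rw [← hv' e he, Submodule.coe_inner, Submodule.coe_norm]

theorem round (δ : ℝ) (hδ : 0 < δ) : ∃ (n : ℕ) (θ : Fin (n + 1) → ℝ) (ρ : ℝ → Fin (n + 1)),
    ∀ u v : ℝ, |Real.cos (θ (ρ u) - θ (ρ v)) - Real.cos (u - v)| ≤ 2 * δ := by
  have hex : ∀ u : ℝ, ∃ a : Fin (⌊2 * Real.pi / δ⌋₊ + 1), ∃ j : ℤ,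
      |((a : ℕ) : ℝ) * δ + j * (2 * Real.pi) - u| ≤ δ := by
    intro u
    have hm := toIcoMod_mem_Ico' Real.two_pi_pos u
    set u' := toIcoMod Real.two_pi_pos 0 u with hu'
    have h1 : ⌊u' / δ⌋₊ ≤ ⌊2 * Real.pi / δ⌋₊ :=
      Nat.floor_le_floor (div_le_div_of_nonneg_right hm.2.le hδ.le)
    refine ⟨⟨⌊u' / δ⌋₊, Nat.lt_succ_of_le h1⟩, toIcoDiv Real.two_pi_pos 0 u, ?_⟩
    have h2 := toIcoMod_add_toIcoDiv_zsmul Real.two_pi_pos 0 u
    rw [← hu', zsmul_eq_mul] at h2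
    have h3 : (⌊u' / δ⌋₊ : ℝ) ≤ u' / δ := Nat.floor_le (div_nonneg hm.1 hδ.le)
    have h4 : u' / δ < (⌊u' / δ⌋₊ : ℝ) + 1 := Nat.lt_floor_add_one _
    rw [le_div_iff₀ hδ] at h3
    rw [div_lt_iff₀ hδ] at h4
    rw [abs_le]
    constructor <;> simp only [] <;> nlinarith
  choose ρ j hj using hex
  refine ⟨_, fun a => ((a : ℕ) : ℝ) * δ, ρ, fun u v => ?_⟩
  have h1 : Real.cos (((ρ u : ℕ) : ℝ) * δ - ((ρ v : ℕ) : ℝ) * δ) =
      Real.cos ((((ρ u : ℕ) : ℝ) * δ - ((ρ v : ℕ) : ℝ) * δ) +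
        ((j u - j v : ℤ) : ℝ) * (2 * Real.pi)) := (Real.cos_add_int_mul_two_pi _ _).symm
  simp only []
  rw [h1]
  refine (Real.abs_cos_sub_cos_le _ _).trans ?_
  have hu := abs_le.1 (hj u)
  have hv := abs_le.1 (hj v)
  push_cast
  rw [abs_le]
  constructor <;> nlinarith [hu.1, hu.2, hv.1, hv.2]

theorem deg_of_inj {V Ω W : Type} (s : Ω → V) (g : Ω → W) (T : V → Finset W) (Δ : ℕ)
    (hT : ∀ x, (T x).card ≤ Δ) (hm : ∀ e, g e ∈ T (s e))
    (hi : ∀ e e', s e = s e' → g e = g e' → e = e') : Deg s Δ := by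
  intro x
  have hinj : Set.InjOn g {e | s e = x} := fun e he e' he' h =>
    hi e e' (Eq.trans he (Eq.symm he')) h
  have hmaps : Set.MapsTo g {e | s e = x} (T x : Set W) := fun e he => by
    have := hm e
    rw [show s e = x from he] at this
    exact this
  have hfin : {e | s e = x}.Finite := Set.Finite.of_injOn hmaps hinj (T x).finite_toSet
  refine ⟨hfin.toFinset, le_trans ?_ (hT x), fun e => by simp⟩
  refine Finset.card_le_card_of_injOn g ?_ ?_
  · simpa using hmaps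
  · simpa using hinj

theorem feature {X ι : Type} [Fintype ι] (φ : X → ι → ℝ) :
    ∃ (D : ℕ) (f : X → EuclideanSpace ℝ (Fin D)), ∀ x y,
      ‖f x - f y‖ ^ 2 = ∑ i, (φ x i - φ y i) ^ 2 := by
  refine ⟨Fintype.card ι,
    fun x => WithLp.toLp 2 fun i => φ x ((Fintype.equivFin ι).symm i), fun x y => ?_⟩
  rw [EuclideanSpace.norm_sq_eq]
  rw [← (Fintype.equivFin ι).symm.sum_comp]
  refine Finset.sum_congr rfl fun i _ => ?_
  simp

theorem close {ρ r τ B S : ℝ} (hρ : 0 ≤ ρ) (hr : 0 ≤ r) (hB : r ≤ B) (hτ : 0 < τ)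
    (hτB : τ * (1 + B ^ 2) = 1) (hρ2 : ρ ^ 2 * τ ^ 2 = 2 - 2 * S)
    (hS : |S - Real.exp (-(τ * r) ^ 2 / 2)| ≤ τ ^ 2 / 4) : r - 1 ≤ ρ ∧ ρ ≤ r + 1 := by
  set s := (τ * r) ^ 2 / 2 with hs
  have hs0 : 0 ≤ s := by positivity
  have he : -(τ * r) ^ 2 / 2 = -s := by rw [hs]; ring
  rw [he] at hS
  have h1 : 1 - s ≤ Real.exp (-s) := by linarith [Real.add_one_le_exp (-s)]
  have h2 : Real.exp (-s) ≤ 1 - s + s ^ 2 / 2 := by
    have hq := Real.quadratic_le_exp_of_nonneg hs0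
    have hpos : 0 < 1 + s + s ^ 2 / 2 := by positivity
    rw [Real.exp_neg, inv_le_comm₀ (Real.exp_pos _) (by nlinarith [sq_nonneg (s - 1)])]
    refine le_trans ?_ hq
    rw [inv_le_iff_one_le_mul₀ (by nlinarith [sq_nonneg (s - 1)])]
    nlinarith [sq_nonneg (s ^ 2)]
  obtain ⟨h3, h4⟩ := abs_le.1 hS
  have hτ2 : 0 < τ ^ 2 := by positivity
  have hup : ρ ^ 2 ≤ r ^ 2 + 1 / 2 := by
    have : ρ ^ 2 * τ ^ 2 ≤ (r ^ 2 + 1 / 2) * τ ^ 2 := by
      have : 2 * s = r ^ 2 * τ ^ 2 := by rw [hs]; ring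
      nlinarith
    exact le_of_mul_le_mul_right this hτ2
  have hr2 : τ * r ^ 2 ≤ 1 := by
    have : r ^ 2 ≤ B ^ 2 := pow_le_pow_left₀ hr hB 2
    nlinarith
  have hlo : r ^ 2 - 3 / 4 ≤ ρ ^ 2 := by
    have h5 : s ^ 2 ≤ τ ^ 2 / 4 := by
      have h6 : s ^ 2 = τ ^ 2 / 4 * (τ * r ^ 2) ^ 2 := by rw [hs]; ring
      have h7 : (τ * r ^ 2) ^ 2 ≤ 1 := pow_le_one₀ (by positivity) hr2
      rw [h6]
      nlinarith
    have : (r ^ 2 - 3 / 4) * τ ^ 2 ≤ ρ ^ 2 * τ ^ 2 := by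
      have : 2 * s = r ^ 2 * τ ^ 2 := by rw [hs]; ring
      nlinarith
    exact le_of_mul_le_mul_right this hτ2
  constructor
  · by_contra h
    push Not at h
    nlinarith
  · by_contra h
    push Not at h
    nlinarith

end AppX

open AppX in
theorem locJL_of_approx.{u} (h : Approx) : LocJL.{u} := by
  classical
  intro X _ hX H _ _ F R B hF
  obtain ⟨N, hN⟩ := hX R
  have hfin : ∀ x : X, (Metric.closedBall x R).Finite := fun x =>
    Set.finite_of_encard_le_coe (hN x)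
  have hcard : ∀ x : X, ((hfin x).toFinset ×ˢ (Finset.univ : Finset Bool)).card ≤ N * 2 := by
    intro x
    rw [Finset.card_product, Finset.card_univ, Fintype.card_bool]
    refine Nat.mul_le_mul_right 2 ?_
    have := hN x
    rw [(hfin x).encard_eq_coe_toFinset_card] at this
    exact_mod_cast this
  set τ : ℝ := 1 / (1 + B ^ 2) with hτ
  have hB2 : 0 < 1 + B ^ 2 := by positivity
  have hτ0 : 0 < τ := by positivity
  have hτB : τ * (1 + B ^ 2) = 1 := by rw [hτ]; field_simp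
  have hτ1 : τ ≤ 1 := by nlinarith [sq_nonneg B]
  set δ : ℝ := τ ^ 2 / 16 with hδ
  have hδ0 : 0 < δ := by positivity
  have hδ1 : δ ≤ 1 := by rw [hδ]; nlinarith
  obtain ⟨n, θ, ρ, hρ⟩ := round δ hδ0
  let Ω : Type := {p : X × X × Bool // dist p.1 p.2.1 ≤ R}
  let s : Ω → X := fun e => e.1.1
  let t : Ω → X := fun e => e.1.2.1
  let σ : Ω → ℝ := fun e => if e.1.2.2 then 1 else -1
  let ψ : Ω → ℝ := fun e => Real.exp (-‖τ • (F (s e) - F (t e))‖ ^ 2 / 2)
  let c : Ω → Fin (n + 1) → Fin (n + 1) → ℝ := fun e a b =>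
    (σ e * (Real.cos (θ a - θ b) - ψ e) + 2) / 4
  have hσ : ∀ e, σ e = 1 ∨ σ e = -1 := fun e => by
    simp only [σ]
    split_ifs <;> simp
  have hψ : ∀ e, 0 < ψ e ∧ ψ e ≤ 1 := fun e => ⟨Real.exp_pos _, Real.exp_le_one_iff.2 (by
    have := sq_nonneg ‖τ • (F (s e) - F (t e))‖
    linarith)⟩
  have hs : Deg s (N * 2) := by
    refine deg_of_inj s (fun e => e.1.2) _ _ hcard (fun e => ?_) (fun e e' h1 h2 => ?_)
    · have := e.2
      rw [dist_comm] at this
      simpa [s] using this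
    · exact Subtype.ext (Prod.ext h1 h2)
  have ht : Deg t (N * 2) := by
    refine deg_of_inj t (fun e => (e.1.1, e.1.2.2)) _ _ hcard (fun e => ?_)
      (fun e e' h1 h2 => ?_)
    · simpa [t] using e.2
    · exact Subtype.ext (Prod.ext (Prod.ext_iff.1 h2).1 (Prod.ext h1 (Prod.ext_iff.1 h2).2))
  have hc : ∀ e a b, 0 ≤ c e a b ∧ c e a b ≤ 1 := fun e a b => by
    have h1 := Real.neg_one_le_cos (θ a - θ b)
    have h2 := Real.cos_le_one (θ a - θ b)
    obtain ⟨h3, h4⟩ := hψ e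
    simp only [c]
    rcases hσ e with h5 | h5 <;> rw [h5] <;> constructor <;> linarith
  have hsolv : Solv s t c (1 / 2 + δ / 2) := by
    intro E w hw
    obtain ⟨g, hg⟩ := gauss E (fun e => w e * σ e) (fun e => τ • (F (s e) - F (t e)))
    refine ⟨fun x => ρ (τ * ⟪g, F x⟫), ?_⟩
    have : ∑ e ∈ E, w e * (c e (ρ (τ * ⟪g, F (s e)⟫)) (ρ (τ * ⟪g, F (t e)⟫)) - (1 / 2 + δ / 2)) ≤
        ∑ e ∈ E, (w e * σ e * (Real.cos ⟪g, τ • (F (s e) - F (t e))⟫ - ψ e)) / 4 := by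
      refine Finset.sum_le_sum fun e _ => ?_
      have h1 := abs_le.1 (hρ (τ * ⟪g, F (s e)⟫) (τ * ⟪g, F (t e)⟫))
      have h2 : ⟪g, τ • (F (s e) - F (t e))⟫ = τ * ⟪g, F (s e)⟫ - τ * ⟪g, F (t e)⟫ := by
        rw [real_inner_smul_right, inner_sub_right, mul_sub]
      rw [h2, mul_assoc, mul_div_assoc]
      refine mul_le_mul_of_nonneg_left ?_ (hw e)
      simp only [c]
      rcases hσ e with h5 | h5 <;> rw [h5] <;> linarith [h1.1, h1.2]
    refine this.trans ?_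
    rw [← Finset.sum_div]
    exact div_nonpos_of_nonpos_of_nonneg hg (by norm_num)
  obtain ⟨L, ω, hω0, hω1, hL⟩ := h X Ω (Fin (n + 1)) s t (N * 2) hs ht c (1 / 2 + δ / 2) hc
    (by positivity) (by linarith) hsolv (δ / 2) (by positivity)
  obtain ⟨D, f, hf⟩ := feature (X := X) (ι := L × Bool) fun x i =>
    Real.sqrt (ω i.1) / τ * (if i.2 then Real.cos (θ (i.1.1 x)) else Real.sin (θ (i.1.1 x)))
  refine ⟨D, f, fun x y hxy => ?_⟩
  refine close (τ := τ) (B := B) (S := ∑ a ∈ L, ω a * Real.cos (θ (a x) - θ (a y)))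
    (norm_nonneg _) (norm_nonneg _) (hF x y hxy) hτ0 hτB ?_ ?_
  · rw [hf, Fintype.sum_prod_type, Finset.sum_mul]
    have h1 : ∀ a : L, (∑ b : Bool,
        (Real.sqrt (ω a) / τ * (if b then Real.cos (θ (a.1 x)) else Real.sin (θ (a.1 x))) -
          Real.sqrt (ω a) / τ * (if b then Real.cos (θ (a.1 y)) else Real.sin (θ (a.1 y)))) ^ 2) *
          τ ^ 2 = 2 * ω a - 2 * (ω a * Real.cos (θ (a.1 x) - θ (a.1 y))) := by
      intro a
      rw [Fintype.sum_bool]
      simp only [if_true, Bool.false_eq_true, if_false]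
      rw [← mul_sub, ← mul_sub, mul_pow, mul_pow, div_pow, Real.sq_sqrt (hω0 _), Real.cos_sub]
      have h2 := Real.cos_sq_add_sin_sq (θ (a.1 x))
      have h3 := Real.cos_sq_add_sin_sq (θ (a.1 y))
      field_simp
      linear_combination (ω a) * h2 + (ω a) * h3
    rw [Finset.sum_congr rfl fun a _ => h1 a,
      Finset.sum_coe_sort L fun a => 2 * ω a - 2 * (ω a * Real.cos (θ (a x) - θ (a y))),
      Finset.sum_sub_distrib, ← Finset.mul_sum, ← Finset.mul_sum, hω1, mul_one]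
  · have key : ∀ b : Bool, σ ⟨(x, y, b), hxy⟩ *
        (∑ a ∈ L, ω a * Real.cos (θ (a x) - θ (a y)) -
          Real.exp (-(τ * ‖F x - F y‖) ^ 2 / 2)) ≤ τ ^ 2 / 4 := by
      intro b
      have h1 := hL ⟨(x, y, b), hxy⟩
      have h2 : ψ ⟨(x, y, b), hxy⟩ = Real.exp (-(τ * ‖F x - F y‖) ^ 2 / 2) := by
        simp only [ψ, s, t, norm_smul, Real.norm_eq_abs, abs_of_pos hτ0]
      have h3 : ∑ a ∈ L, ω a * c ⟨(x, y, b), hxy⟩ (a (s ⟨(x, y, b), hxy⟩))
          (a (t ⟨(x, y, b), hxy⟩)) = (σ ⟨(x, y, b), hxy⟩ *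
          (∑ a ∈ L, ω a * Real.cos (θ (a x) - θ (a y)) -
            (∑ a ∈ L, ω a) * ψ ⟨(x, y, b), hxy⟩) + 2 * ∑ a ∈ L, ω a) / 4 := by
        rw [Finset.sum_mul, ← Finset.sum_sub_distrib, Finset.mul_sum, Finset.mul_sum,
          ← Finset.sum_add_distrib, Finset.sum_div]
        refine Finset.sum_congr rfl fun a _ => ?_
        simp only [c, s, t]
        ring
      rw [h3, hω1, h2] at h1
      linarith
    have k1 := key true
    have k2 := key false
    simp only [σ, if_true, Bool.false_eq_true, if_false] at k1 k2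
    rw [abs_le]
    constructor <;> linarith

end Pool.Agent.MP_9c5a49_an.H23
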