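import Pool.Agent.MP_9c5a49_an.H23.Spec

/-!
From local dimension reduction to finite-dimensional local embeddings.
-/

set_option autoImplicit false

namespace Pool.Agent.MP_9c5a49_an.H23

open Filter

theorem locEmb_of_locJL.{u} (h : LocJL.{u}) (X : Type) [MetricSpace X] (hX : H98.BddGeom X)
    (H : Type u) [NormedAddCommGroup H] [InnerProductSpace ℝ H] (F : X → H) (ρm ρp : ℝ → ℝ)
    (h1 : MonotoneOn ρm (Set.Ici 0)) (h2 : MonotoneOn ρp (Set.Ici 0))
    (h3 : Tendsto ρm atTop atTop)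
    (h4 : ∀ x y, ρm (dist x y) ≤ ‖F x - F y‖ ∧ ‖F x - F y‖ ≤ ρp (dist x y)) : H98.LocEmb X := by
  refine ⟨fun t => ρm t + (-1), fun t => ρp t + 1, fun a ha b hb hab => ?_,
    fun a ha b hb hab => ?_, tendsto_atTop_add_const_right _ _ h3, fun R => ?_⟩
  · have := h1 ha hb hab
    simp only
    linarith
  · have := h2 ha hb hab
    simp only
    linarith
  · obtain ⟨D, f, hf⟩ := h X hX H F R (ρp R) fun x y hxy =>
      (h4 x y).2.trans (h2 dist_nonneg (dist_nonneg.trans hxy) hxy)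
    refine ⟨D, f, fun x y hxy => ?_⟩
    obtain ⟨a, b⟩ := hf x y hxy
    obtain ⟨c, d⟩ := h4 x y
    constructor <;> simp only <;> linarith

/-- The same for a map into a complex inner product space. -/
theorem locEmb_of_locJL_rc.{u} (h : LocJL.{u}) (X : Type) [MetricSpace X] (hX : H98.BddGeom X)
    (𝕜 : Type) [RCLike 𝕜] (H : Type u) [NormedAddCommGroup H] [InnerProductSpace 𝕜 H]
    (F : X → H) (ρm ρp : ℝ → ℝ)
    (h1 : MonotoneOn ρm (Set.Ici 0)) (h2 : MonotoneOn ρp (Set.Ici 0))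
    (h3 : Tendsto ρm atTop atTop)
    (h4 : ∀ x y, ρm (dist x y) ≤ ‖F x - F y‖ ∧ ‖F x - F y‖ ≤ ρp (dist x y)) : H98.LocEmb X := by
  let _ := InnerProductSpace.rclikeToReal 𝕜 H
  exact locEmb_of_locJL h X hX H F ρm ρp h1 h2 h3 h4

end Pool.Agent.MP_9c5a49_an.H23
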