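import Pool.Agent.MP_9c5a49_an.H23.MoRn

/-!
From the uniform family of labellings to the finite convex combination.
-/

set_option autoImplicit false

namespace Pool.Agent.MP_9c5a49_an.H23

open Finset

namespace GlueX

/-- Bounded functions. -/
def Bd (Ω : Type) : Submodule ℝ (Ω → ℝ) where
  carrier := {f | ∃ K : ℝ, ∀ e, |f e| ≤ K}
  zero_mem' := ⟨0, fun _ => by simp⟩
  add_mem' := by
    rintro f g ⟨K, hK⟩ ⟨K', hK'⟩
    exact ⟨K + K', fun e => (abs_add_le _ _).trans (add_le_add (hK e) (hK' e))⟩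
  smul_mem' := by
    rintro c f ⟨K, hK⟩
    refine ⟨|c| * K, fun e => ?_⟩
    rw [Pi.smul_apply, smul_eq_mul, abs_mul]
    exact mul_le_mul_of_nonneg_left (hK e) (abs_nonneg c)

theorem bdd {Ω : Type} (f : Bd Ω) : BddAbove (Set.range (f : Ω → ℝ)) := by
  obtain ⟨K, hK⟩ := f.2
  refine ⟨K, ?_⟩
  rintro _ ⟨e, rfl⟩
  exact (le_abs_self _).trans (hK e)

/-- A mean that is at least `γ` on every member of a family without small convex combinations. -/
theorem mean {Ω I : Type} [Nonempty Ω] (v : I → Ω → ℝ) (hv : ∀ i e, |v i e| ≤ 1) (γ : ℝ)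
    (h : ∀ (L : Finset I) (ω : I → ℝ), (∀ a, 0 ≤ ω a) → ∑ a ∈ L, ω a = 1 →
      ∃ e, γ < ∑ a ∈ L, ω a * v a e) :
    ∃ μ : (Ω → ℝ) →ₗ[ℝ] ℝ,
      (∀ (f : Ω → ℝ) (K K' : ℝ), (∀ e, |f e| ≤ K') → (∀ e, f e ≤ K) → μ f ≤ K) ∧
      ∀ i, γ ≤ μ (v i) := by
  let P : Bd Ω → ℝ := fun f => ⨆ e, (f : Ω → ℝ) e
  let u : I → Bd Ω := fun i => ⟨v i, 1, hv i⟩
  obtain ⟨l, hl, hr⟩ := mo P
    (fun c hc x => by
      simp only [P, Submodule.coe_smul, Pi.smul_apply, smul_eq_mul]
      exact (Real.mul_iSup_of_nonneg hc.le _).symm)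
    (fun x y => ciSup_le fun e => add_le_add (le_ciSup (bdd x) e) (le_ciSup (bdd y) e))
    u (fun _ => γ) (by
      intro w hw
      have hval : ∀ e, ((Finsupp.linearCombination ℝ u w : Bd Ω) : Ω → ℝ) e =
          ∑ a ∈ w.support, w a * v a e := by
        intro e
        rw [Finsupp.linearCombination_apply, Finsupp.sum, Submodule.coe_sum, Finset.sum_apply]
        rfl
      have hle := fun e => le_ciSup (bdd (Finsupp.linearCombination ℝ u w)) e
      have hL : Finsupp.linearCombination ℝ (fun _ : I => γ) w = (∑ a ∈ w.support, w a) * γ := by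
        rw [Finsupp.linearCombination_apply, Finsupp.sum, Finset.sum_mul]
        rfl
      rw [hL]
      have hW : 0 ≤ ∑ a ∈ w.support, w a := Finset.sum_nonneg fun a _ => hw a
      rcases hW.eq_or_lt with h0 | h0
      · obtain ⟨e⟩ := (inferInstance : Nonempty Ω)
        refine le_trans ?_ (hle e)
        rw [hval, ← h0, zero_mul]
        refine le_of_eq (Finset.sum_eq_zero fun a ha => ?_).symm
        rw [(Finset.sum_eq_zero_iff_of_nonneg fun a _ => hw a).mp h0.symm a ha, zero_mul]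
      · obtain ⟨e, he⟩ := h w.support (fun a => w a / ∑ a ∈ w.support, w a)
          (fun a => div_nonneg (hw a) hW) (by rw [← Finset.sum_div, div_self h0.ne'])
        refine le_trans ?_ (hle e)
        rw [hval]
        simp only [div_mul_eq_mul_div] at he
        rw [← Finset.sum_div, lt_div_iff₀ h0] at he
        linarith)
  obtain ⟨μ, hμ⟩ := LinearMap.exists_extend l
  have hμ' : ∀ x : Bd Ω, μ x = l x := fun x => LinearMap.congr_fun hμ x
  refine ⟨μ, fun f K K' hK' hK => ?_, fun i => ?_⟩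
  · have h1 := hμ' ⟨f, K', hK'⟩
    have h2 := hl ⟨f, K', hK'⟩
    have h3 : P ⟨f, K', hK'⟩ ≤ K := ciSup_le hK
    change μ f = _ at h1
    linarith
  · have h1 := hμ' (u i)
    change μ (v i) = _ at h1
    rw [h1]
    exact hr i

/-- Sum over the chosen fibres. -/
noncomputable def fib {V Ω : Type} (I : V → Finset Ω) : (Ω → ℝ) →ₗ[ℝ] (V → ℝ) where
  toFun f x := ∑ e ∈ I x, f e
  map_add' f g := funext fun x => Finset.sum_add_distrib
  map_smul' c f := funext fun x => by
    simp only [Pi.smul_apply, smul_eq_mul, RingHom.id_apply, Finset.mul_sum]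

theorem fib_apply {V Ω : Type} (I : V → Finset Ω) (f : Ω → ℝ) (x : V) :
    fib I f x = ∑ e ∈ I x, f e := rfl

theorem fib_abs {V Ω : Type} (I : V → Finset Ω) (Δ : ℕ) (hI : ∀ x, (I x).card ≤ Δ)
    (f : Ω → ℝ) (K : ℝ) (hK : 0 ≤ K) (hf : ∀ e, |f e| ≤ K) (x : V) : |fib I f x| ≤ Δ * K := by
  rw [fib_apply]
  refine (Finset.abs_sum_le_sum_abs _ _).trans ?_
  refine (Finset.sum_le_card_nsmul _ _ K fun e _ => hf e).trans ?_
  rw [nsmul_eq_mul]
  exact mul_le_mul_of_nonneg_right (by exact_mod_cast hI x) hK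

theorem sum_fib {V Ω : Type} (s : Ω → V) (I : V → Finset Ω) (hI : ∀ x e, e ∈ I x ↔ s e = x)
    (N : Finset V) (E : Finset Ω) (w : V → ℝ) (hw : ∀ x, x ∉ N → w x = 0)
    (hE : ∀ e, s e ∈ N → e ∈ E) (f : Ω → ℝ) :
    ∑ x ∈ N, w x * fib I f x = ∑ e ∈ E, w (s e) * f e := by
  classical
  have h1 : ∀ x ∈ N, w x * fib I f x = ∑ e ∈ E, if s e = x then w (s e) * f e else 0 := by
    intro x hx
    rw [fib_apply, Finset.mul_sum, ← Finset.sum_filter]
    refine Finset.sum_congr ?_ fun e he => ?_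
    · ext e
      rw [Finset.mem_filter, hI]
      exact ⟨fun h => ⟨hE e (h ▸ hx), h⟩, fun h => h.2⟩
    · rw [(Finset.mem_filter.mp he).2]
  rw [Finset.sum_congr rfl h1, Finset.sum_comm]
  refine Finset.sum_congr rfl fun e _ => ?_
  rw [Finset.sum_ite_eq]
  split_ifs with h
  · rfl
  · rw [hw _ h, zero_mul]

theorem l1_le {Ω : Type} (g : Ω →₀ ℝ) (E : Finset Ω) :
    ∑ e ∈ E, |g e| ≤ ∑ e ∈ g.support, |g e| := by
  classical
  rw [← Finset.sum_filter_ne_zero]
  refine Finset.sum_le_sum_of_subset_of_nonneg (fun e he => ?_) fun e _ _ => abs_nonneg _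
  rw [Finsupp.mem_support_iff]
  exact abs_ne_zero.mp (Finset.mem_filter.mp he).2

/-- Duality: the defect bound yields a bounded flow. -/
theorem flow {V Ω : Type} (s t : Ω → V) (I J : V → Finset Ω) (hI : ∀ x e, e ∈ I x ↔ s e = x)
    (hJ : ∀ x e, e ∈ J x ↔ t e = x) (p q g : Ω → ℝ) (γ C : ℝ) (hC : 0 ≤ C)
    (h : ∀ (N : Finset V) (ν : V → ℝ) (E : Finset Ω), (∀ x, 0 ≤ ν x) →
      (∀ x, x ∉ N → ν x = 0) → (∀ e, s e ∈ N ∨ t e ∈ N → e ∈ E) →
      ∑ e ∈ E, p e * ν (s e) * g e ≤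
        γ * ∑ x ∈ N, ν x + C * ∑ e ∈ E, |p e * ν (s e) - q e * ν (t e)|) :
    ∃ f : Ω → ℝ, (∀ e, |f e| ≤ C) ∧
      ∀ x, fib I (p * g) x - fib I (p * f) x + fib J (q * f) x ≤ γ := by
  classical
  let P : (Ω →₀ ℝ) → ℝ := fun g => C * ∑ e ∈ g.support, |g e|
  let v : V → (Ω →₀ ℝ) := fun x =>
    ∑ e ∈ I x, Finsupp.single e (p e) - ∑ e ∈ J x, Finsupp.single e (q e)
  have hv : ∀ x e, v x e = (if s e = x then p e else 0) - if t e = x then q e else 0 := by
    intro x e
    simp only [v, Finsupp.sub_apply, Finsupp.finsetSum_apply, Finsupp.single_apply,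
      Finset.sum_ite_eq', hI, hJ]
  obtain ⟨l, hl, hr⟩ := mo P
    (fun c hc x => by
      simp only [P]
      rw [Finsupp.support_smul_eq hc.ne']
      simp only [Finsupp.smul_apply, smul_eq_mul, abs_mul, abs_of_pos hc, ← Finset.mul_sum]
      ring)
    (fun x y => by
      simp only [P]
      rw [← mul_add]
      refine mul_le_mul_of_nonneg_left ?_ hC
      refine le_trans (Finset.sum_le_sum fun e _ => abs_add_le (x e) (y e)) ?_
      rw [Finset.sum_add_distrib]
      exact add_le_add (l1_le x _) (l1_le y _))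
    v (fun x => fib I (p * g) x - γ) (by
      intro w hw
      let E : Finset Ω := w.support.biUnion fun x => I x ∪ J x
      have hE : ∀ e, s e ∈ w.support ∨ t e ∈ w.support → e ∈ E := by
        rintro e (he | he)
        · exact Finset.mem_biUnion.mpr ⟨_, he, Finset.mem_union_left _ ((hI _ _).mpr rfl)⟩
        · exact Finset.mem_biUnion.mpr ⟨_, he, Finset.mem_union_right _ ((hJ _ _).mpr rfl)⟩
      have hw0 : ∀ x, x ∉ w.support → w x = 0 := fun x hx => Finsupp.notMem_support_iff.mp hx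
      have h1 := h w.support w E hw hw0 hE
      have hval : ∀ e, Finsupp.linearCombination ℝ v w e = p e * w (s e) - q e * w (t e) := by
        intro e
        rw [Finsupp.linearCombination_apply, Finsupp.sum, Finsupp.finsetSum_apply]
        simp only [Finsupp.smul_apply, hv, smul_eq_mul, mul_sub, mul_ite, mul_zero,
          Finset.sum_sub_distrib, Finset.sum_ite_eq]
        congr 1
        · split_ifs with he
          · ring
          · rw [hw0 _ he, mul_zero]
        · split_ifs with he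
          · ring
          · rw [hw0 _ he, mul_zero]
      have h2 := mul_le_mul_of_nonneg_left (l1_le (Finsupp.linearCombination ℝ v w) E) hC
      have h3 := sum_fib s I hI w.support E w hw0 (fun e he => hE e (Or.inl he)) (p * g)
      have h4 : Finsupp.linearCombination ℝ (fun x => fib I (p * g) x - γ) w =
          ∑ x ∈ w.support, w x * fib I (p * g) x - γ * ∑ x ∈ w.support, w x := by
        rw [Finsupp.linearCombination_apply, Finsupp.sum, Finset.mul_sum, ← Finset.sum_sub_distrib]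
        refine Finset.sum_congr rfl fun x _ => ?_
        rw [smul_eq_mul]
        ring
      have h5 : ∑ e ∈ E, w (s e) * (p * g) e = ∑ e ∈ E, p e * w (s e) * g e :=
        Finset.sum_congr rfl fun e _ => by
          rw [Pi.mul_apply]
          ring
      have h6 : ∑ e ∈ E, |Finsupp.linearCombination ℝ v w e| =
          ∑ e ∈ E, |p e * w (s e) - q e * w (t e)| :=
        Finset.sum_congr rfl fun e _ => by rw [hval]
      simp only [P]
      rw [h4, h3, h5]
      rw [h6] at h2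
      linarith)
  have hP : ∀ (e : Ω) (c : ℝ), |c| = 1 → P (Finsupp.single e c) = C := by
    intro e c hc
    have hc0 : c ≠ 0 := by
      rintro rfl
      simp at hc
    simp only [P]
    rw [Finsupp.support_single _ hc0, Finset.sum_singleton, Finsupp.single_eq_same, hc,
      mul_one]
  have hs : ∀ (e : Ω) (c : ℝ), l (Finsupp.single e c) = c * l (Finsupp.single e 1) := by
    intro e c
    rw [← smul_eq_mul, ← map_smul, Finsupp.smul_single, smul_eq_mul, mul_one]
  refine ⟨fun e => l (Finsupp.single e 1), fun e => ?_, fun x => ?_⟩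
  · have h1 := hl (Finsupp.single e 1)
    have h2 := hl (Finsupp.single e (-1))
    rw [hP e 1 abs_one] at h1
    rw [hP e (-1) (by simp), hs] at h2
    rw [abs_le]
    constructor <;> linarith
  · have h1 := hr x
    simp only [v, map_sub, map_sum] at h1
    have h2 : ∑ e ∈ I x, l (Finsupp.single e (p e)) =
        fib I (p * fun e => l (Finsupp.single e 1)) x :=
      Finset.sum_congr rfl fun e _ => hs e _
    have h3 : ∑ e ∈ J x, l (Finsupp.single e (q e)) =
        fib J (q * fun e => l (Finsupp.single e 1)) x :=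
      Finset.sum_congr rfl fun e _ => hs e _
    rw [h2, h3] at h1
    linarith

theorem dom {V Ω : Type} (s t u : Ω → V) (hu : u = s ∨ u = t) (I : V → Finset Ω) (Δ : ℕ)
    (hΔ : ∀ x, (I x).card ≤ Δ) (hI : ∀ x e, e ∈ I x ↔ u e = x) (μ : (Ω → ℝ) →ₗ[ℝ] ℝ)
    (hμ : ∀ (f : Ω → ℝ) (K K' : ℝ), (∀ e, |f e| ≤ K') → (∀ e, f e ≤ K) → μ f ≤ K)
    (f : Ω → ℝ) (K : ℝ) (hf : ∀ e, 0 ≤ f e ∧ f e ≤ K) :
    0 ≤ μ f ∧ μ f ≤ μ (fib I f ∘ s) + μ (fib I f ∘ t) := by
  have pos : ∀ (g : Ω → ℝ) (K : ℝ), (∀ e, 0 ≤ g e) → (∀ e, |g e| ≤ K) → 0 ≤ μ g := by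
    intro g K h0 hK
    have := hμ (-g) 0 K (fun e => by rw [Pi.neg_apply, abs_neg]; exact hK e)
      fun e => by rw [Pi.neg_apply]; linarith [h0 e]
    rw [map_neg] at this
    linarith
  have hf' : ∀ e, |f e| ≤ |K| := fun e => by
    rw [abs_of_nonneg (hf e).1]
    exact (hf e).2.trans (le_abs_self K)
  have hb := fib_abs I Δ hΔ f |K| (abs_nonneg K) hf'
  have h0 : ∀ x, 0 ≤ fib I f x := fun x => Finset.sum_nonneg fun e _ => (hf e).1
  have h1 := pos (fib I f ∘ s) _ (fun e => h0 _) fun e => hb _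
  have h2 := pos (fib I f ∘ t) _ (fun e => h0 _) fun e => hb _
  have h3 := pos (fib I f ∘ u - f) (Δ * |K| + |K|)
    (fun e => sub_nonneg.mpr
      (Finset.single_le_sum (fun e _ => (hf e).1) ((hI (u e) e).mpr rfl)))
    fun e => (abs_sub _ _).trans (add_le_add (hb _) (hf' e))
  rw [map_sub] at h3
  refine ⟨pos f _ (fun e => (hf e).1) hf', ?_⟩
  rcases hu with rfl | rfl <;> linarith

end GlueX

open GlueX in
theorem approx_of_lemB (h : LemB) : Approx := by
  intro V Ω A _ _ s t Δ hs ht c m hc hm0 hm1 hS γ hγ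
  classical
  rcases isEmpty_or_nonempty Ω with hΩ | hΩ
  · obtain ⟨a⟩ := (inferInstance : Nonempty A)
    exact ⟨{fun _ => a}, fun _ => 1, fun _ => zero_le_one, by simp, fun e => hΩ.elim e⟩
  by_contra hno
  have hab : ∀ (a : V → A) e, |c e (a (s e)) (a (t e)) - m| ≤ 1 := fun a e => by
    have := hc e (a (s e)) (a (t e))
    rw [abs_le]
    constructor <;> linarith
  obtain ⟨μ, hμ, hγμ⟩ := mean (fun (a : V → A) e => c e (a (s e)) (a (t e)) - m) hab γ (by
    intro L ω h0 h1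
    by_contra hn
    refine hno ⟨L, ω, h0, h1, fun e => ?_⟩
    have h2 := not_lt.mp fun h2 => hn ⟨e, h2⟩
    simp only [mul_sub, Finset.sum_sub_distrib, ← Finset.sum_mul, h1] at h2
    linarith)
  obtain ⟨C, n, hC, hn, hB⟩ := h Δ (γ / 4) (by linarith)
  choose I hIc hI using hs
  choose J hJc hJ using ht
  let ν : (V → ℝ) →ₗ[ℝ] ℝ :=
    μ ∘ₗ LinearMap.funLeft ℝ ℝ s + μ ∘ₗ LinearMap.funLeft ℝ ℝ t
  have hν : ∀ g : V → ℝ, ν g = μ (g ∘ s) + μ (g ∘ t) := fun _ => rfl
  have hd : 0 < γ / (4 * (2 * C + 1)) := by positivity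
  have hdC : γ / (4 * (2 * C + 1)) * (4 * (2 * C + 1)) = γ := div_mul_cancel₀ _ (by positivity)
  set d := γ / (4 * (2 * C + 1)) with hdd
  obtain ⟨p, hp, hpr⟩ := rn μ (ν ∘ₗ fib I)
    (fun f K hf => dom s t s (Or.inl rfl) I Δ hIc hI μ hμ f K hf) d hd
  obtain ⟨q, hq, hqr⟩ := rn μ (ν ∘ₗ fib J)
    (fun f K hf => dom s t t (Or.inr rfl) J Δ hJc hJ μ hμ f K hf) d hd
  obtain ⟨a, ha⟩ := hB V Ω A s t (fun x => ⟨I x, hIc x, hI x⟩) (fun x => ⟨J x, hJc x, hJ x⟩)
    c m hc hm0 hm1 hS p q hp hq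
  let g : Ω → ℝ := fun e => (∑ i ∈ range n, c e (a i (s e)) (a i (t e))) / n - m
  have hn' : (0 : ℝ) < n := by exact_mod_cast hn
  have hg : g = (n : ℝ)⁻¹ • ∑ i ∈ range n, fun e => c e (a i (s e)) (a i (t e)) - m := by
    funext e
    simp only [g, Pi.smul_apply, Finset.sum_apply, smul_eq_mul, Finset.sum_sub_distrib,
      Finset.sum_const, Finset.card_range, nsmul_eq_mul]
    field_simp
  have hg1 : ∀ e, |g e| ≤ 1 := by
    intro e
    have h0 : 0 ≤ (∑ i ∈ range n, c e (a i (s e)) (a i (t e))) / n :=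
      div_nonneg (Finset.sum_nonneg fun i _ => (hc _ _ _).1) hn'.le
    have h1 : (∑ i ∈ range n, c e (a i (s e)) (a i (t e))) / n ≤ 1 := by
      rw [div_le_one hn']
      refine (Finset.sum_le_card_nsmul _ _ 1 fun i _ => (hc _ _ _).2).trans ?_
      simp
    rw [abs_le]
    simp only [g]
    constructor <;> linarith
  have hgγ : γ ≤ μ g := by
    rw [hg, map_smul, map_sum, smul_eq_mul, le_inv_mul_iff₀ hn']
    refine le_trans ?_ (Finset.card_nsmul_le_sum _ _ γ fun i _ => hγμ (a i))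
    simp
  obtain ⟨f, hf, hfl⟩ := flow s t I J hI hJ p q g (γ / 4) C hC ha
  have mulb : ∀ (r u : Ω → ℝ) (K : ℝ), (∀ e, 0 ≤ r e ∧ r e ≤ 1) → (∀ e, |u e| ≤ K) →
      ∀ e, |(r * u) e| ≤ K := by
    intro r u K hr hu e
    rw [Pi.mul_apply, abs_mul, abs_of_nonneg (hr e).1]
    have := mul_le_mul_of_nonneg_right (hr e).2 (abs_nonneg (u e))
    linarith [hu e]
  let φ : V → ℝ := fib I (p * g) - fib I (p * f) + fib J (q * f)
  have hφ : ∀ x, |φ x| ≤ Δ * 1 + Δ * C + Δ * C := fun x =>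
    (abs_add_le _ _).trans (add_le_add ((abs_sub _ _).trans
      (add_le_add (fib_abs I Δ hIc _ 1 zero_le_one (mulb p g 1 hp hg1) x)
        (fib_abs I Δ hIc _ C hC (mulb p f C hp hf) x)))
      (fib_abs J Δ hJc _ C hC (mulb q f C hq hf) x))
  have h1 := hμ (φ ∘ s) (γ / 4) _ (fun e => hφ _) fun e => hfl _
  have h2 := hμ (φ ∘ t) (γ / 4) _ (fun e => hφ _) fun e => hfl _
  have h3 : ν φ = ν (fib I (p * g)) - ν (fib I (p * f)) + ν (fib J (q * f)) := by
    simp only [φ, map_add, map_sub]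
  have h4 := abs_le.mp (hpr g 1 zero_le_one hg1)
  have h5 := abs_le.mp (hpr f C hC hf)
  have h6 := abs_le.mp (hqr f C hC hf)
  simp only [LinearMap.comp_apply] at h4 h5 h6
  have h7 := hν φ
  nlinarith [h4.1, h4.2, h5.1, h5.2, h6.1, h6.2]

end Pool.Agent.MP_9c5a49_an.H23
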