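import Pool.Agent.MP_9c5a49_an.H23.Spec

/-!
Ground states of locally finite energies, and one-dimensional averaging lemmas.
-/

set_option autoImplicit false

namespace Pool.Agent.MP_9c5a49_an.H23

open Finset

theorem ground {W A J : Type} [Finite A] [Nonempty A] (sp : J → Finset W)
    (E : J → (W → A) → ℝ) (hE : ∀ τ a a', (∀ w ∈ sp τ, a w = a' w) → E τ a = E τ a')
    (hfin : ∀ w, {τ | w ∈ sp τ}.Finite) :
    ∃ a : W → A, ∀ (a' : W → A) (U : Finset W) (S : Finset J), (∀ w, w ∉ U → a' w = a w) →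
      (∀ τ, ∀ w ∈ U, w ∈ sp τ → τ ∈ S) → 0 ≤ ∑ τ ∈ S, (E τ a' - E τ a) := by
  classical
  let St : Finset W → Finset J := fun L => L.biUnion fun w => (hfin w).toFinset
  have hSt : ∀ L τ, τ ∈ St L ↔ ∃ w ∈ L, w ∈ sp τ := fun L τ => by simp [St]
  have hmin : ∀ L : Finset W, ∃ g : W → A, ∀ a, ∑ τ ∈ St L, E τ g ≤ ∑ τ ∈ St L, E τ a := by
    intro L
    let P := (St L).biUnion sp
    let ex : (P → A) → W → A := fun c w => if h : w ∈ P then c ⟨w, h⟩ else Classical.arbitrary A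
    obtain ⟨c, hc⟩ := Finite.exists_min fun c : P → A => ∑ τ ∈ St L, E τ (ex c)
    refine ⟨ex c, fun a => (hc fun w => a w).trans_eq (sum_congr rfl fun τ hτ => hE _ _ _ ?_)⟩
    intro w hw
    have : w ∈ P := mem_biUnion.2 ⟨τ, hτ, hw⟩
    simp [ex, this]
  choose g hg using hmin
  obtain ⟨χ, hχ⟩ := Finset.rado_selection (β := fun _ => A) g
  refine ⟨χ, fun a' U S hU hS => ?_⟩
  obtain ⟨L, hL, hgL⟩ := hχ (U ∪ S.biUnion sp)
  let a'' : W → A := fun w => if w ∈ U then a' w else g L w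
  have h1 : 0 ≤ ∑ τ ∈ St L, (E τ a'' - E τ (g L)) := by
    rw [sum_sub_distrib, sub_nonneg]
    exact hg L a''
  have h2 : St U ⊆ St L := fun τ hτ => by
    obtain ⟨w, hw, h⟩ := (hSt _ _).1 hτ
    exact (hSt _ _).2 ⟨w, hL (mem_union_left _ hw), h⟩
  have h3 : St U ⊆ S := fun τ hτ => by
    obtain ⟨w, hw, h⟩ := (hSt _ _).1 hτ
    exact hS τ w hw h
  rw [← sum_subset h2] at h1
  · rw [← sum_subset h3]
    · refine h1.trans_eq (sum_congr rfl fun τ hτ => ?_)
      have hq : ∀ w ∈ sp τ, χ w = g L w := fun w hw =>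
        hgL w (mem_union_right _ (mem_biUnion.2 ⟨τ, h3 hτ, hw⟩))
      rw [hE τ χ (g L) hq, hE τ a'' a']
      intro w hw
      by_cases h : w ∈ U
      · simp [a'', h]
      · simp [a'', h, hU w h, hq w hw]
    · intro τ _ hτ
      rw [sub_eq_zero]
      exact hE _ _ _ fun w hw => hU w fun h => hτ ((hSt _ _).2 ⟨w, h, hw⟩)
  · intro τ _ hτ
    rw [sub_eq_zero]
    refine hE _ _ _ fun w hw => ?_
    have : w ∉ U := fun h => hτ ((hSt _ _).2 ⟨w, h, hw⟩)
    simp [a'', this]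

/-- The indicator of `n ≤ T`. -/
noncomputable def ind (n T : ℕ) : ℝ := if n ≤ T then 1 else 0

/-- Layer cake weights. -/
theorem weights {θ : ℝ} (h0 : 0 ≤ θ) (h1 : θ ≤ 1) (L : ℕ) :
    ∃ u : ℕ → ℝ, (∀ T, 0 ≤ u T) ∧ (∀ n, ∑ T ∈ range (L + 1), u T * ind n T ≤ θ ^ n) ∧
      ∀ n ≤ L, ∑ T ∈ range (L + 1), u T * ind n T = θ ^ n := by
  have key : ∀ L n, ∑ T ∈ range L, (θ ^ T - θ ^ (T + 1)) * ind n T =
      if n ≤ L then θ ^ n - θ ^ L else 0 := by
    intro L n
    induction L with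
    | zero => by_cases h : n = 0 <;> simp [h]
    | succ L ih =>
      rw [sum_range_succ, ih, ind]
      by_cases h : n ≤ L
      · simp [h, h.trans (Nat.le_succ L)]
      · by_cases h' : n = L + 1
        · simp [h']
        · have : ¬ n ≤ L + 1 := by omega
          simp [h, this]
  have hs : ∀ n, ∑ T ∈ range (L + 1), (if T < L then θ ^ T - θ ^ (T + 1) else θ ^ L) * ind n T =
      if n ≤ L then θ ^ n else 0 := by
    intro n
    rw [sum_range_succ, sum_congr rfl (g := fun T => (θ ^ T - θ ^ (T + 1)) * ind n T)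
      (fun T hT => by rw [if_pos (mem_range.1 hT)]), key, ind]
    by_cases h : n ≤ L <;> simp [h]
  refine ⟨fun T => if T < L then θ ^ T - θ ^ (T + 1) else θ ^ L, fun T => ?_, fun n => ?_,
    fun n hn => by rw [hs, if_pos hn]⟩
  · beta_reduce
    split_ifs
    · exact sub_nonneg.2 (pow_le_pow_of_le_one h0 h1 (Nat.le_succ T))
    · positivity
  · rw [hs]
    split_ifs
    · exact le_rfl
    · positivity

end Pool.Agent.MP_9c5a49_an.H23
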