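import Pool.Agent.MP_9c5a49_an.H23.OneD

/-!
The strip argument.
-/

set_option autoImplicit false

namespace Pool.Agent.MP_9c5a49_an.H23

open Finset

variable {V Ω A : Type}

open Classical in
/-- The configuration modified below level `T`. -/
noncomputable def modif (a : V → ℕ → A) (N : Finset V) (k : V → ℕ) (B : V → ℕ → A) (T : ℕ)
    (x : V) (j : ℕ) : A := if x ∈ N ∧ j + k x ≤ T then B x T else a x j

theorem strip [Finite A] [Nonempty A] {s t : Ω → V} {Δ : ℕ} (hs : Deg s Δ) (ht : Deg t Δ)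
    (c : Ω → A → A → ℝ) (l κ : ℝ) (n D : ℕ) (α β : Ω → ℕ) (hα : ∀ e, n + α e ≤ D)
    (hβ : ∀ e, n + β e ≤ D) :
    ∃ a : V → ℕ → A, ∀ (N : Finset V) (k : V → ℕ) (E : Finset Ω) (B : V → ℕ → A) (T : ℕ),
      (∀ e, s e ∈ N ∨ t e ∈ N → e ∈ E) →
      0 ≤ ∑ e ∈ E, ∑ i ∈ range n, l ^ i * (c e (modif a N k B T (s e) (i + α e))
          (modif a N k B T (t e) (i + β e)) - c e (a (s e) (i + α e)) (a (t e) (i + β e))) +
        κ * ∑ x ∈ N, ∑ j ∈ range D, l ^ j *
          (ne (modif a N k B T x j) (modif a N k B T x (j + 1)) - ne (a x j) (a x (j + 1))) := by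
  classical
  obtain ⟨a, ha⟩ := ground (W := V × ℕ) (A := A) (J := Ω ⊕ V)
    (Sum.elim (fun e => {s e, t e} ×ˢ range (D + 1)) fun x => {x} ×ˢ range (D + 1))
    (Sum.elim (fun e a => ∑ i ∈ range n, l ^ i * c e (a (s e, i + α e)) (a (t e, i + β e)))
      fun x a => κ * ∑ j ∈ range D, l ^ j * ne (a (x, j)) (a (x, j + 1)))
    (by
      rintro (e | x) a a' h
      · refine sum_congr rfl fun i hi => ?_
        have := mem_range.1 hi
        have := hα e
        have := hβ e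
        rw [h (s e, i + α e) (by simp; omega), h (t e, i + β e) (by simp; omega)]
      · refine congrArg (κ * ·) (sum_congr rfl fun j hj => ?_)
        have := mem_range.1 hj
        rw [h (x, j) (by simp; omega), h (x, j + 1) (by simp; omega)])
    (by
      rintro ⟨x, j⟩
      obtain ⟨I, -, hI⟩ := hs x
      obtain ⟨I', -, hI'⟩ := ht x
      refine ((I ∪ I').disjSum {x}).finite_toSet.subset ?_
      rintro (e | y) h
      · simp at h
        simpa [hI, hI', eq_comm] using h.1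
      · simp at h
        simpa using h.2)
  refine ⟨fun x j => a (x, j), fun N k E B T hE => ?_⟩
  refine (ha (fun w => modif (fun x j => a (x, j)) N k B T w.1 w.2) (N ×ˢ range (T + 1))
    (E.disjSum N) ?_ ?_).trans_eq ?_
  · rintro ⟨x, j⟩ hw
    refine if_neg fun h => hw ?_
    have := h.2
    simp only [mem_product, mem_range] at *
    exact ⟨h.1, by omega⟩
  · rintro (e | y) ⟨x, j⟩ hw h
    · simp at hw h
      rcases h.1 with h | h <;> simpa using hE e (by simp [← h, hw.1])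
    · simp at hw h
      simpa [h.2] using hw.1
  · simp only [sum_disjSum, Sum.elim_inl, Sum.elim_inr, mul_sub, sum_sub_distrib, mul_sum]
    ring

theorem master {s t : Ω → V} {Δ : ℕ} (hs : Deg s Δ) (ht : Deg t Δ)
    {c : Ω → A → A → ℝ} {o : Ω → ℝ} (hc : ∀ e a b, 0 ≤ c e a b ∧ c e a b ≤ o e)
    (ho : ∀ e, 0 ≤ o e ∧ o e ≤ 1) {θ κ : ℝ} (h0 : 0 < θ) (h1 : θ < 1) (hκ : 0 ≤ κ) {n D : ℕ}
    {α β : Ω → ℕ} {a : V → ℕ → A} {N : Finset V} {k : V → ℕ} {E Eu : Finset Ω} {B : V → ℕ → A}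
    [DecidableEq V] [DecidableEq Ω]
    (H : ∀ T, 0 ≤ ∑ e ∈ E, ∑ i ∈ range n, θ⁻¹ ^ i * (c e (modif a N k B T (s e) (i + α e))
          (modif a N k B T (t e) (i + β e)) - c e (a (s e) (i + α e)) (a (t e) (i + β e))) +
        κ * ∑ x ∈ N, ∑ j ∈ range D, θ⁻¹ ^ j *
          (ne (modif a N k B T x j) (modif a N k B T x (j + 1)) - ne (a x j) (a x (j + 1))))
    (hE : Eu ⊆ E) (hi : Ω → ℕ) (hu : ∀ e ∈ Eu, s e ∈ N ∧ t e ∈ N ∧
      hi e = max (α e + k (s e)) (β e + k (t e)) ∧ hi e ≤ α e + k (s e) + 2 ∧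
      hi e ≤ β e + k (t e) + 2)
    (χ : ℝ) (hχ : ∀ x j, ne (B x (j + k x)) (a x (j + 1)) ≤ ne (a x j) (a x (j + 1)) + χ) :
    ∑ e ∈ Eu, θ ^ hi e * ∑ i ∈ range n, c e (a (s e) (i + α e)) (a (t e) (i + β e)) +
      κ * θ * ∑ x ∈ N, θ ^ k x * Fl (a x) D ≤
    ∑ e ∈ Eu, θ ^ hi e * ∑ i ∈ range n, c e (B (s e) (i + hi e)) (B (t e) (i + hi e)) +
      (Δ / (1 - θ) + 4 * Δ * (1 - θ) * n + κ * χ * (1 - θ) * D) * ∑ x ∈ N, θ ^ k x +
      n * ∑ e ∈ E \ Eu, o e * ((if s e ∈ N then θ ^ (α e + k (s e)) else 0) +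
        if t e ∈ N then θ ^ (β e + k (t e)) else 0) := by
  have hη := sub_pos.2 h1
  obtain ⟨Λ, hΛ⟩ := exists_avg h0.le h1.le (n + Eu.sup hi + (D + N.sup k))
  have h := hΛ.mono 0 (∑ e ∈ E, (fun T => ∑ i ∈ range n, θ⁻¹ ^ i *
      (c e (modif a N k B T (s e) (i + α e)) (modif a N k B T (t e) (i + β e)) -
        c e (a (s e) (i + α e)) (a (t e) (i + β e)))) + κ • ∑ x ∈ N, fun T =>
      ∑ j ∈ range D, θ⁻¹ ^ j * (ne (modif a N k B T x j) (modif a N k B T x (j + 1)) -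
        ne (a x j) (a x (j + 1)))) fun T => by simpa [Finset.sum_apply] using H T
  rw [map_zero, map_add, map_smul, map_sum, map_sum, ← sum_sdiff hE, smul_eq_mul] at h
  have b1 := sum_le_sum fun e (he : e ∈ Eu) => edge_good hΛ h0 h1
    (fun T i => c e (modif a N k B T (s e) (i + α e)) (modif a N k B T (t e) (i + β e)))
    (fun i => c e (a (s e) (i + α e)) (a (t e) (i + β e))) (fun T => c e (B (s e) T) (B (t e) T))
    (min (α e + k (s e)) (β e + k (t e))) (hi e) n (by have := hu e he; omega)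
    (by have := le_sup (f := hi) he; omega) (fun i => (hc _ _ _).1)
    (fun T i => (hc _ _ _).2.trans (ho e).2) (fun T => ⟨(hc _ _ _).1, (hc _ _ _).2.trans (ho e).2⟩)
    (fun T i hT => by
      rw [modif, modif, if_neg (by omega), if_neg (by omega)])
    (fun T i hT => by
      obtain ⟨u1, u2, u3, -⟩ := hu e he
      rw [modif, modif, if_pos ⟨u1, by omega⟩, if_pos ⟨u2, by omega⟩])
  have b2 := sum_le_sum fun e (_ : e ∈ E \ Eu) => edge_bad hΛ h0
    (fun T i => c e (modif a N k B T (s e) (i + α e)) (modif a N k B T (t e) (i + β e)) -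
      c e (a (s e) (i + α e)) (a (t e) (i + β e))) (if s e ∈ N then o e else 0)
    (if t e ∈ N then o e else 0) (α e + k (s e)) (β e + k (t e)) n
    (by split_ifs; exacts [(ho e).1, le_rfl]) (by split_ifs; exacts [(ho e).1, le_rfl])
    (fun T i => by
      have g1 := (ho e).1
      have g2 := hc e (modif a N k B T (s e) (i + α e)) (modif a N k B T (t e) (i + β e))
      have g3 := hc e (a (s e) (i + α e)) (a (t e) (i + β e))
      by_cases c1 : s e ∈ N ∧ i + α e + k (s e) ≤ T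
      · rw [if_pos c1.1, ind, if_pos (by omega), ind]
        split_ifs <;> linarith
      · by_cases c2 : t e ∈ N ∧ i + β e + k (t e) ≤ T
        · rw [if_pos c2.1, ind, ind, if_pos (by omega : i + (β e + k (t e)) ≤ T)]
          split_ifs <;> linarith
        · rw [modif, modif, if_neg c1, if_neg c2, ind, ind]
          split_ifs <;> linarith)
  have b3 := sum_le_sum fun x (hx : x ∈ N) => vertex hΛ h0 (a x) (B x)
    (fun T j => modif a N k B T x j) (k x) D (by have := le_sup (f := k) hx; omega) χ (hχ x)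
    (fun T j hT => if_pos ⟨hx, hT⟩) (fun T j hT => if_neg (by omega))
  have b4 : ∑ e ∈ Eu, θ ^ hi e ≤ Δ * ∑ x ∈ N, θ ^ k x :=
    (sum_le_sum fun e he => pow_le_pow_of_le_one h0.le h1.le (by have := hu e he; omega)).trans
      (hs.sum_le (fun e he => (hu e he).1) (fun x => θ ^ k x) fun x => by positivity)
  have b5 : ∑ e ∈ Eu, (θ ^ min (α e + k (s e)) (β e + k (t e)) - θ ^ hi e) ≤
      2 * (1 - θ) * (Δ * ∑ x ∈ N, θ ^ k x + Δ * ∑ x ∈ N, θ ^ k x) := by
    refine le_trans ?_ (mul_le_mul_of_nonneg_left (add_le_add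
      (hs.sum_le (fun e he => (hu e he).1) (fun x => θ ^ k x) fun x => by positivity)
      (ht.sum_le (fun e he => (hu e he).2.1) (fun x => θ ^ k x) fun x => by positivity))
      (by positivity))
    rw [← sum_add_distrib, mul_sum]
    refine sum_le_sum fun e he => ?_
    have g1 : θ ^ (min (α e + k (s e)) (β e + k (t e)) + 2) ≤ θ ^ hi e :=
      pow_le_pow_of_le_one h0.le h1.le (by have := hu e he; omega)
    have g2 : θ ^ min (α e + k (s e)) (β e + k (t e)) ≤ θ ^ k (s e) + θ ^ k (t e) := by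
      rcases le_total (k (s e)) (k (t e)) with g | g
      · exact le_add_of_le_of_nonneg (pow_le_pow_of_le_one h0.le h1.le (by omega)) (by positivity)
      · exact le_add_of_nonneg_of_le (by positivity) (pow_le_pow_of_le_one h0.le h1.le (by omega))
    have g3 : 0 ≤ θ ^ min (α e + k (s e)) (β e + k (t e)) := by positivity
    rw [pow_add] at g1
    nlinarith [mul_le_mul_of_nonneg_left g2 hη.le, mul_nonneg g3 (sq_nonneg (1 - θ))]
  have b6 : ∑ e ∈ E \ Eu, (n : ℝ) * ((if s e ∈ N then o e else 0) * θ ^ (α e + k (s e)) +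
      (if t e ∈ N then o e else 0) * θ ^ (β e + k (t e))) =
      n * ∑ e ∈ E \ Eu, o e * ((if s e ∈ N then θ ^ (α e + k (s e)) else 0) +
        if t e ∈ N then θ ^ (β e + k (t e)) else 0) := by
    rw [mul_sum]
    refine sum_congr rfl fun e _ => ?_
    split_ifs <;> ring
  rw [b6] at b2
  rw [sum_sub_distrib, ← mul_sum, ← mul_sum, ← mul_sum] at b3
  simp only [mul_add, mul_sub (θ ^ hi _), sum_add_distrib, sum_sub_distrib (f := fun e => _ + _)]
    at b1
  rw [← mul_sum, ← sum_mul] at b1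
  have b7 := mul_le_mul_of_nonneg_left b3 hκ
  have b8 := mul_le_mul_of_nonneg_left b5 (Nat.cast_nonneg (α := ℝ) n)
  have b9 := mul_le_mul_of_nonneg_right b4 (by positivity : 0 ≤ 1 / (1 - θ))
  rw [div_eq_mul_one_div (Δ : ℝ)]
  linarith

theorem lemA [Finite A] [Nonempty A] {s t : Ω → V} {Δ : ℕ} (hs : Deg s Δ) (ht : Deg t Δ)
    {c : Ω → A → A → ℝ} {o : Ω → ℝ} (hc : ∀ e a b, 0 ≤ c e a b ∧ c e a b ≤ o e)
    (ho : ∀ e, 0 ≤ o e ∧ o e ≤ 1) {θ κ : ℝ} (h0 : 0 < θ) (h1 : θ < 1) (hκ : 0 ≤ κ) (n M : ℕ)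
    {α β : Ω → ℕ} (hα : ∀ e, α e ≤ M) (hβ : ∀ e, β e ≤ M) [DecidableEq V] [DecidableEq Ω] :
    ∃ a : ℕ → V → A, ∀ (N : Finset V) (k : V → ℕ) (E Eu : Finset Ω) (hi : Ω → ℕ) (b : V → A)
      (W Br : ℝ), (∀ e, s e ∈ N ∨ t e ∈ N → e ∈ E) → Eu ⊆ E → (∀ e ∈ Eu, s e ∈ N ∧ t e ∈ N ∧
      hi e = max (α e + k (s e)) (β e + k (t e)) ∧ hi e ≤ α e + k (s e) + 2 ∧
      hi e ≤ β e + k (t e) + 2) → W = ∑ x ∈ N, θ ^ k x →
      Br = ∑ e ∈ E \ Eu, o e * ((if s e ∈ N then θ ^ (α e + k (s e)) else 0) +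
        if t e ∈ N then θ ^ (β e + k (t e)) else 0) → ∃ F : ℝ, 0 ≤ F ∧
      (κ * θ - 4 * Δ) * F ≤ (Δ / (1 - θ) + 4 * Δ * (1 - θ) * n) * W + n * Br ∧
      ∑ e ∈ Eu, θ ^ hi e * ∑ i ∈ range n, c e (a i (s e)) (a i (t e)) ≤
        n * ∑ e ∈ Eu, θ ^ hi e * c e (b (s e)) (b (t e)) +
        (Δ / (1 - θ) + 4 * Δ * (1 - θ) * n + κ * (1 - θ) * (n + M + 2)) * W + n * Br +
        2 * Δ * M * F := by
  obtain ⟨a, ha⟩ := strip hs ht c θ⁻¹ κ n (n + M + 2) α β (fun e => by have := hα e; omega)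
    fun e => by have := hβ e; omega
  refine ⟨fun i x => a x i, fun N k E Eu hi b W Br hE hEu hu hW hBr => ?_⟩
  have hc1 : ∀ e a b, 0 ≤ c e a b ∧ c e a b ≤ 1 := fun e a b =>
    ⟨(hc e a b).1, (hc e a b).2.trans (ho e).2⟩
  have hF : ∀ x, 0 ≤ θ ^ k x * Fl (a x) (n + M + 2) := fun x =>
    mul_nonneg (by positivity) (Fl_nonneg _ _)
  have key : ∀ (S : ℝ) (f g : Ω → ℝ), 0 ≤ S → (∀ e ∈ Eu, f e ≤ g e +
      S * Fl (a (s e)) (n + M + 2) + S * Fl (a (t e)) (n + M + 2)) → ∑ e ∈ Eu, θ ^ hi e * f e ≤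
      ∑ e ∈ Eu, θ ^ hi e * g e + 2 * Δ * S * ∑ x ∈ N, θ ^ k x * Fl (a x) (n + M + 2) := by
    intro S f g hS h
    have g1 := mul_le_mul_of_nonneg_left (add_le_add (hs.sum_le (fun e he => (hu e he).1) _ hF)
      (ht.sum_le (fun e he => (hu e he).2.1) _ hF)) hS
    rw [← sum_add_distrib, mul_sum] at g1
    refine le_trans ?_ ((add_le_add_right g1 (∑ e ∈ Eu, θ ^ hi e * g e)).trans_eq (by ring))
    rw [← sum_add_distrib]
    refine sum_le_sum fun e he => ?_
    have g2 : θ ^ hi e ≤ θ ^ k (s e) :=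
      pow_le_pow_of_le_one h0.le h1.le (by have := hu e he; omega)
    have g3 : θ ^ hi e ≤ θ ^ k (t e) :=
      pow_le_pow_of_le_one h0.le h1.le (by have := hu e he; omega)
    have g4 := mul_le_mul_of_nonneg_left (h e he) (by positivity : 0 ≤ θ ^ hi e)
    have g5 := mul_le_mul_of_nonneg_right g2 (mul_nonneg hS (Fl_nonneg (a (s e)) (n + M + 2)))
    have g6 := mul_le_mul_of_nonneg_right g3 (mul_nonneg hS (Fl_nonneg (a (t e)) (n + M + 2)))
    linarith
  have m1 := master hs ht hc ho h0 h1 hκ (fun T => ha N k E (fun x T => a x (T - k x)) T hE) hEu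
    hi hu 0 fun x j => by simp
  have m2 := master hs ht hc ho h0 h1 hκ (fun T => ha N k E (fun x _ => b x) T hE) hEu
    hi hu 1 fun x j => le_add_of_nonneg_of_le (ne_nonneg _ _) (ne_le _ _)
  have k1 := key 2 (fun e => ∑ i ∈ range n, c e (a (s e) (i + hi e - k (s e)))
      (a (t e) (i + hi e - k (t e))))
    (fun e => ∑ i ∈ range n, c e (a (s e) (i + α e)) (a (t e) (i + β e))) zero_le_two fun e he => by
      obtain ⟨-, -, u1, u2, u3⟩ := hu e he
      obtain ⟨r, hr⟩ : ∃ r, hi e = α e + r + k (s e) := ⟨hi e - (α e + k (s e)), by omega⟩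
      obtain ⟨r', hr'⟩ : ∃ r, hi e = β e + r + k (t e) := ⟨hi e - (β e + k (t e)), by omega⟩
      have f1 := flips (a (s e)) (n + M + 2) n (α e) r 2 (by have := hα e; omega) (by omega)
      have f2 := flips (a (t e)) (n + M + 2) n (β e) r' 2 (by have := hβ e; omega) (by omega)
      refine le_trans ?_ (add_le_add (add_le_add_right f1 _) f2)
      rw [← sum_add_distrib, ← sum_add_distrib]
      refine sum_le_sum fun i _ => ?_
      rw [show i + hi e - k (s e) = i + α e + r by omega,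
        show i + hi e - k (t e) = i + β e + r' by omega]
      exact (cost_le (hc1 e) _ _ _ _).2
  have k2 := key M (fun e => ∑ i ∈ range n, c e (a (s e) i) (a (t e) i))
    (fun e => ∑ i ∈ range n, c e (a (s e) (i + α e)) (a (t e) (i + β e))) (Nat.cast_nonneg M)
    fun e he => by
      have f1 := flips (a (s e)) (n + M + 2) n 0 (α e) M (by have := hα e; omega) (hα e)
      have f2 := flips (a (t e)) (n + M + 2) n 0 (β e) M (by have := hβ e; omega) (hβ e)
      refine le_trans ?_ (add_le_add (add_le_add_right f1 _) f2)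
      rw [← sum_add_distrib, ← sum_add_distrib]
      exact sum_le_sum fun i _ => (cost_le (hc1 e) _ _ _ _).1
  have k3 : ∑ e ∈ Eu, θ ^ hi e * ∑ _i ∈ range n, c e (b (s e)) (b (t e)) =
      n * ∑ e ∈ Eu, θ ^ hi e * c e (b (s e)) (b (t e)) := by
    rw [mul_sum]
    exact sum_congr rfl fun e _ => by rw [sum_const, card_range, nsmul_eq_mul]; ring
  have k4 := mul_nonneg (mul_nonneg hκ h0.le) (sum_nonneg fun x (_ : x ∈ N) => hF x)
  rw [← hW, ← hBr] at m1 m2
  rw [k3] at m2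
  push_cast at m1 m2
  exact ⟨_, sum_nonneg fun x (_ : x ∈ N) => hF x, by linarith, by linarith⟩

end Pool.Agent.MP_9c5a49_an.H23
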