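import Pool.Agent.MP_9c5a49_an.H23.LemA

/-!
From geometric weights to real weights.
-/

set_option autoImplicit false

namespace Pool.Agent.MP_9c5a49_an.H23

open Finset

theorem bern {η : ℝ} (h1 : η ≤ 1) (M : ℕ) : (1 - η) ^ M * (1 + M * η) ≤ 1 := by
  induction M with
  | zero => simp
  | succ M ih =>
    have : 0 ≤ (1 - η) ^ M := pow_nonneg (sub_nonneg.2 h1) M
    rw [pow_succ]
    push_cast
    nlinarith [mul_nonneg this (mul_nonneg (sq_nonneg η) (by positivity : (0 : ℝ) ≤ M + 1))]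

theorem params (Δ : ℕ) {γ : ℝ} (hγ : 0 < γ) : ∃ (θ κ C : ℝ) (n M : ℕ), 1 / 2 ≤ θ ∧ θ < 1 ∧ 0 ≤ κ ∧
    0 ≤ C ∧ 0 < n ∧ Δ * θ ^ M ≤ γ ∧ Δ * (1 - θ) ≤ γ ∧ ∀ F W Br : ℝ, 0 ≤ F → 0 ≤ W → 0 ≤ Br →
      (κ * θ - 4 * Δ) * F ≤ (Δ / (1 - θ) + 4 * Δ * (1 - θ) * n) * W + n * Br →
      (Δ / (1 - θ) + 4 * Δ * (1 - θ) * n + κ * (1 - θ) * (n + M + 2)) * W + n * Br +
        2 * Δ * M * F ≤ n * (γ * W + C * Br) := by
  obtain ⟨M, hM⟩ := exists_nat_ge (Δ / γ)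
  obtain ⟨C, hC⟩ : ∃ C : ℝ, C = 1 + 32 * Δ * M / γ := ⟨_, rfl⟩
  have hC1 : 1 ≤ C := hC ▸ le_add_of_nonneg_right (by positivity)
  obtain ⟨n, hn⟩ := exists_nat_ge (64 * C * Δ / γ + M + 2)
  have hΔ : (0 : ℝ) ≤ Δ := Nat.cast_nonneg Δ
  have hM0 : (0 : ℝ) ≤ M := Nat.cast_nonneg M
  have p0 : 0 ≤ 64 * C * Δ / γ := by positivity
  have n2 : (M : ℝ) + 2 ≤ n := by linarith
  have n0 : (0 : ℝ) < n := by linarith
  have n3 : 64 * C * Δ ≤ n * γ := (div_le_iff₀ hγ).1 (by linarith)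
  have n4 : 64 * Δ ≤ n * γ := by nlinarith
  have n5 : 1 / (n : ℝ) ≤ 1 / 2 := one_div_le_one_div_of_le two_pos (by linarith)
  have n6 : 0 < 1 / (n : ℝ) := by positivity
  rw [div_le_iff₀ hγ] at hM
  refine ⟨1 - 1 / n, γ / 4 * n, C, n * n, n * M, by linarith, by linarith, by positivity,
    by linarith, Nat.mul_pos (Nat.cast_pos.1 n0) (Nat.cast_pos.1 n0), ?_, ?_, ?_⟩
  · have h := bern (η := 1 / n) (by linarith) (n * M)
    have h' : 0 ≤ (1 - 1 / (n : ℝ)) ^ (n * M) := pow_nonneg (by linarith) _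
    rw [show ((n * M : ℕ) : ℝ) * (1 / n) = M by push_cast; field_simp] at h
    nlinarith [mul_le_mul_of_nonneg_right hM h', mul_le_mul_of_nonneg_left h hγ.le,
      mul_nonneg h' hγ.le]
  · rw [sub_sub_cancel, mul_one_div, div_le_iff₀ n0]
    linarith
  · intro F W Br hF hW hB h
    push_cast at h ⊢
    rw [sub_sub_cancel, show (Δ : ℝ) / (1 / n) + 4 * Δ * (1 / n) * (n * n) = 5 * Δ * n by
      field_simp; ring] at h ⊢
    rw [show γ / 4 * n * (1 / n) = γ / 4 by field_simp]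
    obtain ⟨K, hK⟩ : ∃ K, K = 5 * Δ * n * W + n * n * Br := ⟨_, rfl⟩
    have h1 : γ / 16 * n * F ≤ K := by
      refine le_trans (mul_le_mul_of_nonneg_right ?_ hF) (hK ▸ h)
      nlinarith [mul_le_mul_of_nonneg_left n5 (by positivity : 0 ≤ γ / 4 * n)]
    have h2 : 2 * Δ * (n * M) * F ≤ (C - 1) * K := by
      refine le_trans (le_of_eq ?_) (mul_le_mul_of_nonneg_left h1 (sub_nonneg.2 hC1))
      rw [hC]
      field_simp
      ring
    have h3 : γ / 4 * (n * n + n * M + 2) * W ≤ γ / 4 * (2 * (n * n)) * W := by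
      gcongr
      nlinarith
    have h4 : C * (5 * Δ * n * W) ≤ n * n * (γ / 2 * W) := by
      have := mul_le_mul_of_nonneg_right n3 (mul_nonneg n0.le hW)
      nlinarith [mul_nonneg (mul_nonneg (mul_nonneg n0.le hW) hΔ) (zero_le_one.trans hC1)]
    rw [hK] at h2
    linarith

theorem gap {θ Z P Q : ℝ} (h0 : 1 / 2 ≤ θ) (h1 : θ < 1) (hZ : 0 ≤ Z) {a b : ℕ} (h : b + 3 ≤ a)
    (hP : P ≤ Z * θ ^ a) (hQ : Z * θ ^ (b + 2) ≤ Q) :
    (1 - θ) * (Z * (θ ^ a + θ ^ b)) ≤ 8 * (Q - P) := by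
  have g0 : 0 ≤ θ := by linarith
  have g1 := mul_le_mul_of_nonneg_left (pow_le_pow_of_le_one g0 h1.le h) hZ
  have g2 := mul_le_mul_of_nonneg_left (mul_le_mul_of_nonneg_left
    (pow_le_pow_of_le_one g0 h1.le (by omega : b ≤ a)) hZ) (sub_pos.2 h1).le
  have g3 : 0 ≤ (1 - θ) * (Z * θ ^ b) * (4 * θ ^ 2 - 1) :=
    mul_nonneg (mul_nonneg (sub_pos.2 h1).le (by positivity)) (by nlinarith)
  rw [pow_add] at g1 hQ
  linarith

theorem br_le {θ Z P Q : ℝ} (h0 : 1 / 2 ≤ θ) (h1 : θ < 1) (hZ : 0 ≤ Z) {a b : ℕ} {u v : Prop}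
    [Decidable u] [Decidable v] (hu : u → Z * θ ^ (a + 2) ≤ P ∧ P ≤ Z * θ ^ a) (hu' : ¬u → P = 0)
    (hv : v → Z * θ ^ (b + 2) ≤ Q ∧ Q ≤ Z * θ ^ b) (hv' : ¬v → Q = 0)
    (h : ¬(u ∧ v ∧ max a b ≤ a + 2 ∧ max a b ≤ b + 2)) :
    P ≤ Z * ((if u then θ ^ a else 0) + if v then θ ^ b else 0) ∧
    (1 - θ) * (Z * ((if u then θ ^ a else 0) + if v then θ ^ b else 0)) ≤ 8 * |P - Q| := by
  have g0 : 0 ≤ θ := by linarith
  have g1 := le_abs_self (P - Q)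
  have g2 := neg_le_abs (P - Q)
  have ga : 0 ≤ Z * θ ^ a := by positivity
  have gb : 0 ≤ Z * θ ^ b := by positivity
  have g3 : 0 ≤ 4 * θ ^ 2 - 1 := by nlinarith
  by_cases c1 : u <;> by_cases c2 : v
  · rw [if_pos c1, if_pos c2]
    refine ⟨by linarith [(hu c1).2], ?_⟩
    by_cases c3 : b + 3 ≤ a
    · linarith [gap h0 h1 hZ c3 (hu c1).2 (hv c2).1]
    · have c4 : a + 3 ≤ b := by
        by_contra c4
        exact h ⟨c1, c2, by omega, by omega⟩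
      linarith [gap h0 h1 hZ c4 (hv c2).2 (hu c1).1]
  · obtain ⟨k1, k2⟩ := hu c1
    rw [if_pos c1, if_neg c2, add_zero]
    rw [pow_add] at k1
    exact ⟨k2, by nlinarith [hv' c2, mul_nonneg ga g3, mul_nonneg ga g0]⟩
  · obtain ⟨k1, k2⟩ := hv c2
    rw [if_neg c1, if_pos c2, zero_add]
    rw [pow_add] at k1
    exact ⟨hu' c1 ▸ gb, by nlinarith [hu' c1, mul_nonneg gb g3, mul_nonneg gb g0]⟩
  · rw [if_neg c1, if_neg c2, hu' c1]
    simp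

theorem Deg.sum_le' {V Ω : Type} {s : Ω → V} {Δ : ℕ} (hs : Deg s Δ) (E : Finset Ω) {N : Finset V}
    {g : V → ℝ} (hg : ∀ x, 0 ≤ g x) (hN : ∀ x, x ∉ N → g x = 0) :
    ∑ e ∈ E, g (s e) ≤ Δ * ∑ x ∈ N, g x := by
  classical
  refine (hs.sum_le (fun e he => mem_image_of_mem s he) g hg).trans
    (mul_le_mul_of_nonneg_left ?_ (Nat.cast_nonneg Δ))
  rw [← sum_filter_ne_zero]
  exact sum_le_sum_of_subset_of_nonneg
    (fun x hx => by_contra fun h => (mem_filter.1 hx).2 (hN x h)) fun x _ _ => hg x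

theorem lemB : LemB := by
  intro Δ γ hγ
  obtain ⟨θ, κ, C, n, M, h0, h1, hκ, hC, hn, hM, hη, hpar⟩ := params Δ (by positivity : 0 < γ / 8)
  have hθ : 0 < θ := by linarith
  have η0 := sub_pos.2 h1
  have n0 : (0 : ℝ) < n := Nat.cast_pos.2 hn
  refine ⟨8 / (1 - θ) * (C + 1), n, by positivity, hn, ?_⟩
  intro V Ω A _ _ s t hs ht c m hc hm0 hm1 H p q hp hq
  classical
  obtain ⟨lg, hlg⟩ : ∃ lg : ℝ → ℕ, ∀ r, 0 < r → r ≤ 1 → θ ^ (lg r + 1) < r ∧ r ≤ θ ^ lg r := by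
    have : ∀ r : ℝ, ∃ j : ℕ, 0 < r → r ≤ 1 → θ ^ (j + 1) < r ∧ r ≤ θ ^ j := fun r => by
      by_cases h : 0 < r ∧ r ≤ 1
      · exact (exists_nat_pow_near_of_lt_one h.1 h.2 hθ h1).imp fun j hj _ _ => hj
      · exact ⟨0, fun a b => (h ⟨a, b⟩).elim⟩
    exact ⟨_, fun r => (this r).choose_spec⟩
  have hθM : 0 < θ ^ M := by positivity
  have hlM : ∀ r, r ≤ 1 → θ ^ M < r → lg r ≤ M := fun r r1 r2 => by
    by_contra h
    linarith [(hlg r (hθM.trans r2) r1).2, pow_le_pow_of_le_one hθ.le h1.le (not_le.1 h).le]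
  obtain ⟨ok, hok⟩ : ∃ ok : Ω → Prop, ∀ e, ok e ↔ θ ^ M < p e ∧ θ ^ M < q e := ⟨_, fun _ => Iff.rfl⟩
  obtain ⟨α, hα⟩ : ∃ α : Ω → ℕ, ∀ e, α e = if ok e then lg (p e) else 0 := ⟨_, fun _ => rfl⟩
  obtain ⟨β, hβ⟩ : ∃ β : Ω → ℕ, ∀ e, β e = if ok e then lg (q e) else 0 := ⟨_, fun _ => rfl⟩
  obtain ⟨a, ha⟩ := lemA hs ht (c := fun e a b => if ok e then c e a b else 0)
    (o := fun e => if ok e then 1 else 0)
    (fun e a b => by split_ifs; exacts [hc e a b, ⟨le_rfl, le_rfl⟩])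
    (fun e => by split_ifs <;> norm_num) hθ h1 hκ n M (α := α) (β := β)
    (fun e => by
      rw [hα]
      split_ifs with h
      exacts [hlM _ (hp e).2 ((hok e).1 h).1, M.zero_le])
    (fun e => by
      rw [hβ]
      split_ifs with h
      exacts [hlM _ (hq e).2 ((hok e).1 h).2, M.zero_le])
  refine ⟨a, fun N ν E hν hN hE => ?_⟩
  obtain ⟨S, hS⟩ : ∃ S, S = ∑ x ∈ N, ν x := ⟨_, rfl⟩
  have S0 : 0 ≤ S := hS ▸ sum_nonneg fun x _ => hν x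
  obtain ⟨Z, hZ⟩ : ∃ Z, Z = S + 1 := ⟨_, rfl⟩
  have Z0 : 0 < Z := by linarith
  obtain ⟨N', hN'⟩ : ∃ N' : Finset V, N' = N.filter fun x => 0 < ν x := ⟨_, rfl⟩
  obtain ⟨k, hk⟩ : ∃ k : V → ℕ, ∀ x ∈ N', Z * θ ^ (k x + 1) ≤ ν x ∧ ν x ≤ Z * θ ^ k x := by
    refine ⟨fun x => lg (ν x / Z), fun x hx => ?_⟩
    obtain ⟨x1, x2⟩ := mem_filter.1 (hN' ▸ hx)
    have := single_le_sum (fun x _ => hν x) x1
    obtain ⟨y1, y2⟩ := hlg (ν x / Z) (by positivity) ((div_le_one Z0).2 (by linarith))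
    exact ⟨((lt_div_iff₀' Z0).1 y1).le, (div_le_iff₀' Z0).1 y2⟩
  have hz : ∀ x, x ∉ N' → ν x = 0 := fun x hx => by_contra fun h =>
    hx (hN' ▸ mem_filter.2 ⟨by_contra fun h' => h (hN x h'), (hν x).lt_of_ne' h⟩)
  have hPQ : ∀ r x, r ≤ 1 → θ ^ M < r → x ∈ N' →
      Z * θ ^ (lg r + k x + 2) ≤ r * ν x ∧ r * ν x ≤ Z * θ ^ (lg r + k x) := by
    intro r x r1 r2 hx
    obtain ⟨y1, y2⟩ := hlg r (hθM.trans r2) r1
    obtain ⟨x1, x2⟩ := hk x hx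
    exact ⟨le_trans (le_of_eq (by ring)) (mul_le_mul y1.le x1 (by positivity) (hθM.trans r2).le),
      (mul_le_mul y2 x2 (hν x) (by positivity)).trans_eq (by ring)⟩
  obtain ⟨hi, hhi⟩ : ∃ hi : Ω → ℕ, ∀ e, hi e = max (α e + k (s e)) (β e + k (t e)) :=
    ⟨_, fun _ => rfl⟩
  obtain ⟨Eu, hEu⟩ : ∃ Eu : Finset Ω, ∀ e, e ∈ Eu ↔ e ∈ E ∧ ok e ∧ s e ∈ N' ∧ t e ∈ N' ∧
    hi e ≤ α e + k (s e) + 2 ∧ hi e ≤ β e + k (t e) + 2 := ⟨E.filter _, fun _ => mem_filter⟩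
  have hsub : Eu ⊆ E := fun e he => ((hEu e).1 he).1
  have hNN : N' ⊆ N := hN' ▸ filter_subset _ _
  obtain ⟨b, hb⟩ := H Eu (fun e => θ ^ hi e) fun e => by positivity
  obtain ⟨br, hbr⟩ : ∃ br : Ω → ℝ, ∀ e, br e = (if ok e then 1 else 0) *
    ((if s e ∈ N' then θ ^ (α e + k (s e)) else 0) +
      if t e ∈ N' then θ ^ (β e + k (t e)) else 0) := ⟨_, fun _ => rfl⟩
  obtain ⟨F, F0, F1, F2⟩ := ha N' k E Eu hi b _ (∑ e ∈ E \ Eu, br e)
    (fun e he => hE e (he.imp (@hNN _) (@hNN _))) hsub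
    (fun e he => by
      obtain ⟨-, -, u1, u2, u3⟩ := (hEu e).1 he
      exact ⟨u1, u2, hhi e, u3⟩) rfl (sum_congr rfl fun e _ => hbr e)
  obtain ⟨W, hW⟩ : ∃ W, W = ∑ x ∈ N', θ ^ k x := ⟨_, rfl⟩
  have W0 : 0 ≤ W := hW ▸ sum_nonneg fun x _ => by positivity
  have W1 : Z * W ≤ 2 * S := by
    rw [hW, hS, mul_sum, mul_sum]
    refine (sum_le_sum fun x hx => ?_).trans
      (sum_le_sum_of_subset_of_nonneg hNN fun x _ _ => by linarith [hν x])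
    have := (hk x hx).1
    rw [pow_succ] at this
    nlinarith [(by positivity : 0 ≤ Z * θ ^ k x)]
  rw [← hW] at F1 F2
  have F3 := hpar F W _ F0 W0 (sum_nonneg fun e _ => by rw [hbr]; positivity) F1
  obtain ⟨d, hd⟩ : ∃ d : Ω → ℝ, ∀ e, d e = (∑ i ∈ range n, c e (a i (s e)) (a i (t e))) / n - m :=
    ⟨_, fun _ => rfl⟩
  have d1 : ∀ e, -1 ≤ d e ∧ d e ≤ 1 := fun e => by
    have g1 : 0 ≤ (∑ i ∈ range n, c e (a i (s e)) (a i (t e))) / n :=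
      div_nonneg (sum_nonneg fun _ _ => (hc _ _ _).1) n0.le
    have g2 : (∑ i ∈ range n, c e (a i (s e)) (a i (t e))) / n ≤ 1 :=
      (div_le_one n0).2 ((sum_le_card_nsmul _ _ 1 fun _ _ => (hc _ _ _).2).trans_eq (by simp))
    rw [hd]
    constructor <;> linarith
  have F4 : ∑ e ∈ Eu, θ ^ hi e * d e ≤ γ / 8 * W + C * ∑ e ∈ E \ Eu, br e := by
    refine le_of_mul_le_mul_left ?_ n0
    have e1 : n * ∑ e ∈ Eu, θ ^ hi e * d e = ∑ e ∈ Eu, θ ^ hi e * ∑ i ∈ range n,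
        (if ok e then c e (a i (s e)) (a i (t e)) else 0) - n * ∑ e ∈ Eu, θ ^ hi e * m := by
      rw [mul_sum, mul_sum, ← sum_sub_distrib]
      refine sum_congr rfl fun e he => ?_
      simp only [((hEu e).1 he).2.1, if_true, hd]
      field_simp
    have e2 : ∑ e ∈ Eu, θ ^ hi e * (if ok e then c e (b (s e)) (b (t e)) else 0) =
        ∑ e ∈ Eu, θ ^ hi e * (c e (b (s e)) (b (t e)) - m) + ∑ e ∈ Eu, θ ^ hi e * m := by
      rw [← sum_add_distrib]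
      refine sum_congr rfl fun e he => ?_
      rw [if_pos ((hEu e).1 he).2.1]
      ring
    rw [e2] at F2
    rw [e1]
    linarith [mul_le_mul_of_nonneg_left hb n0.le]
  have B1 : ∀ e ∈ E \ Eu, Z * br e ≤ 8 / (1 - θ) * |p e * ν (s e) - q e * ν (t e)| ∧
      p e * ν (s e) * d e ≤ θ ^ M * (ν (s e) + ν (t e)) +
        8 / (1 - θ) * |p e * ν (s e) - q e * ν (t e)| := by
    intro e he
    obtain ⟨he1, he2⟩ := mem_sdiff.1 he
    have g0 : p e * ν (s e) * d e ≤ p e * ν (s e) :=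
      mul_le_of_le_one_right (mul_nonneg (hp e).1 (hν _)) (d1 e).2
    have g1 := mul_nonneg hθM.le (hν (s e))
    have g2 := mul_nonneg hθM.le (hν (t e))
    rw [hbr]
    by_cases h : ok e
    · obtain ⟨o1, o2⟩ := (hok e).1 h
      obtain ⟨k1, k2⟩ := br_le (P := p e * ν (s e)) (Q := q e * ν (t e)) h0 h1 Z0.le
        (a := α e + k (s e)) (b := β e + k (t e)) (u := s e ∈ N') (v := t e ∈ N')
        (by rw [hα, if_pos h]; exact hPQ _ _ (hp e).2 o1) (fun h => by rw [hz _ h, mul_zero])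
        (by rw [hβ, if_pos h]; exact hPQ _ _ (hq e).2 o2) (fun h => by rw [hz _ h, mul_zero])
        fun h' => he2 ((hEu e).2 ⟨he1, h, by rwa [hhi]⟩)
      rw [← le_div_iff₀' η0, mul_div_right_comm] at k2
      rw [if_pos h, one_mul]
      exact ⟨k2, by linarith⟩
    · have g3 : |p e * ν (s e) - q e * ν (t e)| ≤ 8 / (1 - θ) * |p e * ν (s e) - q e * ν (t e)| :=
        le_mul_of_one_le_left (abs_nonneg _) ((one_le_div η0).2 (by linarith))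
      rw [if_neg h, zero_mul, mul_zero]
      refine ⟨by positivity, ?_⟩
      rcases not_and_or.1 (mt (hok e).2 h) with h | h
      · linarith [mul_le_mul_of_nonneg_right (not_lt.1 h) (hν (s e)),
          abs_nonneg (p e * ν (s e) - q e * ν (t e))]
      · linarith [mul_le_mul_of_nonneg_right (not_lt.1 h) (hν (t e)),
          le_abs_self (p e * ν (s e) - q e * ν (t e))]
  have B2 : ∀ e ∈ Eu, p e * ν (s e) * d e ≤ Z * (θ ^ hi e * d e) +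
      2 * (1 - θ) * Z * θ ^ k (s e) := by
    intro e he
    obtain ⟨-, h, u1, -, u3, -⟩ := (hEu e).1 he
    obtain ⟨k1, k2⟩ := hPQ _ _ (hp e).2 ((hok e).1 h).1 u1
    rw [show lg (p e) = α e by rw [hα, if_pos h]] at k1 k2
    have g1 := mul_le_mul_of_nonneg_left (pow_le_pow_of_le_one hθ.le h1.le u3) Z0.le
    have g2 := mul_le_mul_of_nonneg_left (pow_le_pow_of_le_one hθ.le h1.le
      (hhi e ▸ le_max_left _ _ : α e + k (s e) ≤ hi e)) Z0.le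
    have g3 := mul_le_mul_of_nonneg_left (mul_le_mul_of_nonneg_left (pow_le_pow_of_le_one hθ.le
      h1.le (by omega : k (s e) ≤ α e + k (s e))) Z0.le) η0.le
    have g4 := mul_nonneg (by positivity : 0 ≤ Z * θ ^ (α e + k (s e))) (sq_nonneg (1 - θ))
    rw [pow_add _ _ 2] at k1 g1
    have g5 : p e * ν (s e) - Z * θ ^ hi e ≤ 2 * (1 - θ) * Z * θ ^ k (s e) := by linarith
    have g6 : -(2 * (1 - θ) * Z * θ ^ k (s e)) ≤ p e * ν (s e) - Z * θ ^ hi e := by linarith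
    nlinarith [mul_nonneg (sub_nonneg.2 g5) (sub_nonneg.2 (d1 e).1),
      mul_nonneg (sub_nonneg.2 g6) (sub_nonneg.2 (d1 e).2)]
  have s1 := sum_le_sum fun e he => (B1 e he).1
  have s2 := sum_le_sum fun e he => (B1 e he).2
  have s3 := sum_le_sum B2
  have s4 := hs.sum_le' (E \ Eu) hν hN
  have s5 := ht.sum_le' (E \ Eu) hν hN
  have s6 := hs.sum_le (E := Eu) (fun e he => ((hEu e).1 he).2.2.1) (fun x => θ ^ k x)
    fun x => by positivity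
  have s7 : ∑ e ∈ E \ Eu, |p e * ν (s e) - q e * ν (t e)| ≤
      ∑ e ∈ E, |p e * ν (s e) - q e * ν (t e)| :=
    sum_le_sum_of_subset_of_nonneg sdiff_subset fun _ _ _ => abs_nonneg _
  rw [← mul_sum, ← mul_sum] at s1
  rw [sum_add_distrib, ← mul_sum, ← mul_sum, sum_add_distrib] at s2
  rw [sum_add_distrib, ← mul_sum, ← mul_sum] at s3
  rw [← hW] at s6
  rw [← hS] at s4 s5 ⊢
  simp only [← hd]
  rw [← sum_sdiff hsub]
  linarith [mul_le_mul_of_nonneg_left F4 Z0.le, mul_le_mul_of_nonneg_left s1 hC,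
    mul_le_mul_of_nonneg_left s7 (by positivity : 0 ≤ 8 / (1 - θ) * (C + 1)),
    mul_le_mul_of_nonneg_left (add_le_add s4 s5) hθM.le, mul_le_mul_of_nonneg_right hM S0,
    mul_le_mul_of_nonneg_left s6 (by positivity : 0 ≤ 2 * (1 - θ) * Z),
    mul_le_mul_of_nonneg_right hη (mul_nonneg Z0.le W0), mul_le_mul_of_nonneg_left W1 hγ.le]

end Pool.Agent.MP_9c5a49_an.H23
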