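import Pool.Agent.MP_9c5a49_an.H23.Spec

/-!
The Mazur-Orlicz lemma and an approximate Radon-Nikodym lemma for positive functionals on
bounded functions.
-/

set_option autoImplicit false

namespace Pool.Agent.MP_9c5a49_an.H23

/-- Mazur-Orlicz lemma. -/
theorem mo {E I : Type*} [AddCommGroup E] [Module ℝ E] (P : E → ℝ)
    (hom : ∀ c : ℝ, 0 < c → ∀ x, P (c • x) = c * P x) (add : ∀ x y, P (x + y) ≤ P x + P y)
    (v : I → E) (r : I → ℝ)
    (h : ∀ w : I →₀ ℝ, (∀ i, 0 ≤ w i) →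
      Finsupp.linearCombination ℝ r w ≤ P (Finsupp.linearCombination ℝ v w)) :
    ∃ l : E →ₗ[ℝ] ℝ, (∀ x, l x ≤ P x) ∧ ∀ i, r i ≤ l (v i) := by
  have P0 : P 0 = 0 := by
    have := hom 2 (by norm_num) 0
    rw [smul_zero] at this
    linarith
  set Lv := Finsupp.linearCombination ℝ v with hLv
  set Lr := Finsupp.linearCombination ℝ r with hLr
  let S : E → Set ℝ := fun x => {z | ∃ w : I →₀ ℝ, (∀ i, 0 ≤ w i) ∧ z = P (x + Lv w) - Lr w}
  have hlb : ∀ x, ∀ z ∈ S x, -P (-x) ≤ z := by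
    rintro x z ⟨w, hw, rfl⟩
    have h1 := h w hw
    have h2 := add (x + Lv w) (-x)
    have h3 : x + Lv w + -x = Lv w := by abel
    rw [h3] at h2
    linarith
  have hbd : ∀ x, BddBelow (S x) := fun x => ⟨_, hlb x⟩
  have hne : ∀ x, (S x).Nonempty := fun x => ⟨_, 0, fun _ => le_rfl, rfl⟩
  let Q : E → ℝ := fun x => sInf (S x)
  have Qle : ∀ x (w : I →₀ ℝ), (∀ i, 0 ≤ w i) → Q x ≤ P (x + Lv w) - Lr w :=
    fun x w hw => csInf_le (hbd x) ⟨w, hw, rfl⟩
  have leQ : ∀ x (a : ℝ), (∀ w : I →₀ ℝ, (∀ i, 0 ≤ w i) → a ≤ P (x + Lv w) - Lr w) → a ≤ Q x := by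
    intro x a ha
    refine le_csInf (hne x) ?_
    rintro z ⟨w, hw, rfl⟩
    exact ha w hw
  have Qh : ∀ c : ℝ, 0 < c → ∀ x, Q (c • x) ≤ c * Q x := by
    intro c hc x
    have : Q (c • x) / c ≤ Q x := by
      refine leQ x _ fun w hw => ?_
      rw [div_le_iff₀ hc]
      have h1 := Qle (c • x) (c • w) fun i => by
        rw [Finsupp.smul_apply, smul_eq_mul]
        exact mul_nonneg hc.le (hw i)
      rw [map_smul, map_smul, ← smul_add, hom c hc, smul_eq_mul] at h1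
      linarith
    rw [div_le_iff₀ hc] at this
    linarith
  have Qhom : ∀ c : ℝ, 0 < c → ∀ x, Q (c • x) = c * Q x := by
    intro c hc x
    refine le_antisymm (Qh c hc x) ?_
    have h1 := Qh c⁻¹ (inv_pos.mpr hc) (c • x)
    rw [smul_smul, inv_mul_cancel₀ hc.ne', one_smul] at h1
    have h2 := mul_le_mul_of_nonneg_left h1 hc.le
    rwa [← mul_assoc, mul_inv_cancel₀ hc.ne', one_mul] at h2
  have Qadd : ∀ x y, Q (x + y) ≤ Q x + Q y := by
    intro x y
    have : Q (x + y) - Q y ≤ Q x := by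
      refine leQ x _ fun w hw => ?_
      have : Q (x + y) - (P (x + Lv w) - Lr w) ≤ Q y := by
        refine leQ y _ fun w' hw' => ?_
        have h1 := Qle (x + y) (w + w') fun i => by
          rw [Finsupp.add_apply]
          exact add_nonneg (hw i) (hw' i)
        rw [map_add, map_add] at h1
        have h2 := add (x + Lv w) (y + Lv w')
        have h3 : x + Lv w + (y + Lv w') = x + y + (Lv w + Lv w') := by abel
        rw [h3] at h2
        linarith
      linarith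
    linarith
  obtain ⟨l, -, hl⟩ := exists_extension_of_le_sublinear (⊥ : E →ₗ.[ℝ] ℝ) Q Qhom Qadd (by
    rintro ⟨x, hx⟩
    have hx0 : x = 0 := (Submodule.mem_bot ℝ).mp hx
    subst hx0
    have h1 : (⊥ : E →ₗ.[ℝ] ℝ) ⟨0, hx⟩ = 0 := LinearPMap.map_zero _
    rw [h1]
    refine leQ 0 0 fun w hw => ?_
    have := h w hw
    rw [zero_add]
    linarith)
  refine ⟨l, fun x => ?_, fun i => ?_⟩
  · have h1 := Qle x 0 fun _ => le_rfl
    rw [map_zero, map_zero, add_zero, sub_zero] at h1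
    exact (hl x).trans h1
  · classical
    have h1 := Qle (-v i) (Finsupp.single i 1) fun j => by
      rw [Finsupp.single_apply]
      split_ifs <;> norm_num
    rw [hLv, hLr, Finsupp.linearCombination_single, Finsupp.linearCombination_single, one_smul,
      one_smul, neg_add_cancel, P0] at h1
    have h2 := hl (-v i)
    rw [map_neg] at h2
    linarith

namespace MoRnX

theorem clip {Ω : Type*} (μ n : (Ω → ℝ) →ₗ[ℝ] ℝ)
    (hμ : ∀ (f : Ω → ℝ) (K : ℝ), (∀ e, 0 ≤ f e ∧ f e ≤ K) → 0 ≤ μ f ∧ μ f ≤ n f)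
    (q : Ω → ℝ) (K : ℝ) (hq : ∀ e, |q e| ≤ K) :
    ∃ p : Ω → ℝ, (∀ e, 0 ≤ p e ∧ p e ≤ 1) ∧ n (p * p) / 2 - μ p ≤ n (q * q) / 2 - μ q := by
  let p : Ω → ℝ := fun e => max 0 (min 1 (q e))
  let u : Ω → ℝ := fun e => max 0 (q e - 1)
  have key : ∀ e, (0 ≤ p e ∧ p e ≤ 1) ∧ (0 ≤ u e ∧ u e ≤ K) ∧
      (0 ≤ p e + u e - q e ∧ p e + u e - q e ≤ K) ∧
      (0 ≤ q e * q e - p e * p e - 2 * u e ∧ q e * q e - p e * p e - 2 * u e ≤ K * K) := by
    intro e
    have h := abs_le.mp (hq e)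
    have hK : 0 ≤ K := (abs_nonneg _).trans (hq e)
    rcases le_total (q e) 0 with h0 | h0
    · have hp : p e = 0 := max_eq_left (min_le_of_right_le h0)
      have hu : u e = 0 := max_eq_left (by linarith)
      rw [hp, hu]
      refine ⟨⟨le_rfl, zero_le_one⟩, ⟨le_rfl, hK⟩, ⟨by linarith, by linarith⟩, ?_, ?_⟩ <;> nlinarith
    · rcases le_total (q e) 1 with h1 | h1
      · have hp : p e = q e := by
          simp only [p]
          rw [min_eq_right h1, max_eq_right h0]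
        have hu : u e = 0 := max_eq_left (by linarith)
        rw [hp, hu]
        refine ⟨⟨h0, h1⟩, ⟨le_rfl, hK⟩, ⟨by linarith, by linarith⟩, ?_, ?_⟩ <;> nlinarith
      · have hp : p e = 1 := by
          simp only [p]
          rw [min_eq_left h1, max_eq_right zero_le_one]
        have hu : u e = q e - 1 := max_eq_right (by linarith)
        rw [hp, hu]
        refine ⟨⟨zero_le_one, le_rfl⟩, ⟨by linarith, by linarith⟩, ⟨by linarith, by linarith⟩,
          ?_, ?_⟩ <;> nlinarith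
  refine ⟨p, fun e => (key e).1, ?_⟩
  have h1 := hμ u K fun e => (key e).2.1
  have h2 := hμ (p + u - q) K fun e => (key e).2.2.1
  have h3 := hμ (q * q - p * p - (2 : ℝ) • u) (K * K) fun e => (key e).2.2.2
  simp only [map_sub, map_add, map_smul, smul_eq_mul] at h2 h3
  linarith [h1.2, h2.1, h3.1, h3.2]

theorem rn_one {Ω : Type*} (μ n : (Ω → ℝ) →ₗ[ℝ] ℝ)
    (hμ : ∀ (f : Ω → ℝ) (K : ℝ), (∀ e, 0 ≤ f e ∧ f e ≤ K) → 0 ≤ μ f ∧ μ f ≤ n f)
    (d : ℝ) (hd : 0 < d) :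
    ∃ p : Ω → ℝ, (∀ e, 0 ≤ p e ∧ p e ≤ 1) ∧
      ∀ f : Ω → ℝ, (∀ e, |f e| ≤ 1) → μ f - n (p * f) ≤ d := by
  let S : Set ℝ := {z | ∃ p : Ω → ℝ, (∀ e, 0 ≤ p e ∧ p e ≤ 1) ∧ z = n (p * p) / 2 - μ p}
  have hbd : BddBelow S := by
    refine ⟨-μ 1, ?_⟩
    rintro z ⟨p, hp, rfl⟩
    have h1 := hμ (1 - p) 1 fun e => by
      have := hp e
      simp only [Pi.sub_apply, Pi.one_apply]
      constructor <;> linarith
    have h2 := hμ (p * p) 1 fun e => by
      have := hp e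
      simp only [Pi.mul_apply]
      constructor <;> nlinarith
    rw [map_sub] at h1
    linarith [h1.1, h2.1, h2.2]
  have hne : S.Nonempty := ⟨_, 0, fun _ => ⟨le_rfl, zero_le_one⟩, rfl⟩
  have hN : 0 ≤ n 1 := by
    have := hμ 1 1 fun _ => ⟨zero_le_one, le_rfl⟩
    linarith [this.1, this.2]
  set t := d / (n 1 + 1) with ht
  have ht0 : 0 < t := div_pos hd (by linarith)
  have htd : t * (n 1 + 1) = d := div_mul_cancel₀ d (by linarith)
  obtain ⟨z, ⟨p, hp, rfl⟩, hz⟩ := exists_lt_of_csInf_lt hne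
    (lt_add_of_pos_right (sInf S) (half_pos (mul_pos ht0 hd)))
  refine ⟨p, hp, fun f hf => ?_⟩
  obtain ⟨p', hp', h1⟩ := clip μ n hμ (p + t • f) (1 + t) fun e => by
    have a := hp e
    have b := abs_le.mp (hf e)
    simp only [Pi.add_apply, Pi.smul_apply, smul_eq_mul]
    rw [abs_le]
    constructor <;> nlinarith
  have h2 : sInf S ≤ n (p' * p') / 2 - μ p' := csInf_le hbd ⟨p', hp', rfl⟩
  have h3 : (p + t • f) * (p + t • f) = p * p + (2 * t) • (p * f) + (t * t) • (f * f) := by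
    ext e
    simp only [Pi.add_apply, Pi.mul_apply, Pi.smul_apply, smul_eq_mul]
    ring
  have h4 := hμ (1 - f * f) 1 fun e => by
    have b := abs_le.mp (hf e)
    simp only [Pi.sub_apply, Pi.one_apply, Pi.mul_apply]
    constructor <;> nlinarith
  rw [h3] at h1
  simp only [map_add, map_smul, smul_eq_mul, map_sub] at h1 h4
  have h5 : n (f * f) ≤ n 1 := by linarith [h4.1, h4.2]
  have h6 : t * t * n (f * f) ≤ t * d := by
    have := mul_le_mul_of_nonneg_left h5 (mul_pos ht0 ht0).le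
    nlinarith [mul_pos ht0 ht0]
  have h7 : t * (μ f - n (p * f)) ≤ t * d := by linarith
  exact le_of_mul_le_mul_left h7 ht0

end MoRnX

/-- Approximate Radon-Nikodym lemma. -/
theorem rn {Ω : Type*} (μ n : (Ω → ℝ) →ₗ[ℝ] ℝ)
    (hμ : ∀ (f : Ω → ℝ) (K : ℝ), (∀ e, 0 ≤ f e ∧ f e ≤ K) → 0 ≤ μ f ∧ μ f ≤ n f)
    (d : ℝ) (hd : 0 < d) :
    ∃ p : Ω → ℝ, (∀ e, 0 ≤ p e ∧ p e ≤ 1) ∧
      ∀ (f : Ω → ℝ) (K : ℝ), 0 ≤ K → (∀ e, |f e| ≤ K) → |μ f - n (p * f)| ≤ K * d := by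
  obtain ⟨p, hp, h⟩ := MoRnX.rn_one μ n hμ d hd
  refine ⟨p, hp, fun f K hK hf => ?_⟩
  rcases hK.eq_or_lt with rfl | hK
  · have : f = 0 := funext fun e => abs_nonpos_iff.mp (hf e)
    subst this
    simp
  · have hs : ∀ c : ℝ, |c| * K ≤ 1 → c * (μ f - n (p * f)) ≤ d := by
      intro c hc
      have h1 := h (c • f) fun e => by
        simp only [Pi.smul_apply, smul_eq_mul, abs_mul]
        exact (mul_le_mul_of_nonneg_left (hf e) (abs_nonneg c)).trans hc
      rw [mul_smul_comm, map_smul, map_smul, smul_eq_mul, smul_eq_mul] at h1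
      linarith
    have hi : |K⁻¹| * K ≤ 1 := by
      rw [abs_of_pos (inv_pos.mpr hK), inv_mul_cancel₀ hK.ne']
    have h1 := mul_le_mul_of_nonneg_left (hs K⁻¹ hi) hK.le
    have h2 := mul_le_mul_of_nonneg_left (hs (-K⁻¹) (by rwa [abs_neg])) hK.le
    rw [← mul_assoc, mul_inv_cancel₀ hK.ne', one_mul] at h1
    rw [← mul_assoc, mul_neg, mul_inv_cancel₀ hK.ne'] at h2
    rw [abs_le]
    constructor <;> linarith

end Pool.Agent.MP_9c5a49_an.H23
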