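import Pool.Agent.MP_9c5a49_an.H23.Ground

/-!
One-dimensional lemmas for the strip argument.
-/

set_option autoImplicit false

namespace Pool.Agent.MP_9c5a49_an.H23

open Finset

/-- A layer cake average over the levels. -/
structure Avg (θ : ℝ) (L : ℕ) (Λ : (ℕ → ℝ) →ₗ[ℝ] ℝ) : Prop where
  mono : ∀ g h : ℕ → ℝ, (∀ T, g T ≤ h T) → Λ g ≤ Λ h
  le : ∀ n, Λ (ind n) ≤ θ ^ n
  eq : ∀ n ≤ L, Λ (ind n) = θ ^ n

theorem exists_avg {θ : ℝ} (h0 : 0 ≤ θ) (h1 : θ ≤ 1) (L : ℕ) : ∃ Λ, Avg θ L Λ := by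
  obtain ⟨u, hu, h2, h3⟩ := weights h0 h1 L
  refine ⟨∑ T ∈ range (L + 1), u T • LinearMap.proj T, fun g h hgh => ?_, fun n => ?_,
    fun n hn => ?_⟩
  · simp only [LinearMap.sum_apply, LinearMap.smul_apply, LinearMap.proj_apply, smul_eq_mul]
    exact sum_le_sum fun T _ => mul_le_mul_of_nonneg_left (hgh T) (hu T)
  · simpa [LinearMap.sum_apply] using h2 n
  · simpa [LinearMap.sum_apply] using h3 n hn

theorem geo {θ : ℝ} (h0 : 0 < θ) (n : ℕ) :
    (1 - θ) * ∑ i ∈ range (n + 1), θ⁻¹ ^ i ≤ θ⁻¹ ^ n := by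
  induction n with
  | zero => simpa using h0.le
  | succ n ih =>
    have : θ⁻¹ ^ n = θ * θ⁻¹ ^ (n + 1) := by
      rw [pow_succ', ← mul_assoc, mul_inv_cancel₀ h0.ne', one_mul]
    rw [sum_range_succ]
    nlinarith

theorem inv_mul_pow {θ : ℝ} (h0 : 0 < θ) (i n : ℕ) : θ⁻¹ ^ i * θ ^ (i + n) = θ ^ n := by
  rw [pow_add, ← mul_assoc, ← mul_pow, inv_mul_cancel₀ h0.ne', one_pow, one_mul]

theorem shift_bound {θ : ℝ} (h0 : 0 < θ) (h1 : θ < 1) (γ : ℕ → ℝ) (hγ : ∀ T, 0 ≤ γ T)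
    (hi T n : ℕ) : ∑ i ∈ range n, θ⁻¹ ^ i * (ind (i + hi) T * γ T) ≤
      ∑ i ∈ range n, θ⁻¹ ^ i / (1 - θ) * γ (i + hi) * (ind (i + hi) T - ind (i + hi + 1) T) +
        (∑ i ∈ range n, θ⁻¹ ^ i) * (ind (n + hi) T * γ T) := by
  induction n with
  | zero => simp
  | succ n ih =>
    have hg : ∑ i ∈ range (n + 1), θ⁻¹ ^ i ≤ θ⁻¹ ^ n / (1 - θ) := by
      rw [le_div_iff₀ (sub_pos.2 h1), mul_comm]
      exact geo h0 n
    rw [sum_range_succ, sum_range_succ, sum_range_succ] at *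
    rcases lt_trichotomy T (n + hi) with h | h | h
    · have e1 : ind (n + hi) T = 0 := if_neg (by omega)
      have e2 : ind (n + hi + 1) T = 0 := if_neg (by omega)
      have e3 : ind (n + 1 + hi) T = 0 := if_neg (by omega)
      rw [e1] at ih
      rw [e1, e2, e3]
      linarith
    · have e1 : ind (n + hi) T = 1 := if_pos (by omega)
      have e2 : ind (n + hi + 1) T = 0 := if_neg (by omega)
      have e3 : ind (n + 1 + hi) T = 0 := if_neg (by omega)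
      rw [e1] at ih
      rw [e1, e2, e3, ← h]
      nlinarith [mul_le_mul_of_nonneg_right hg (hγ T)]
    · have e1 : ind (n + hi) T = 1 := if_pos (by omega)
      have e2 : ind (n + hi + 1) T = 1 := if_pos (by omega)
      have e3 : ind (n + 1 + hi) T = 1 := if_pos (by omega)
      rw [e1] at ih
      rw [e1, e2, e3]
      linarith

theorem edge_good {θ : ℝ} {L : ℕ} {Λ : (ℕ → ℝ) →ₗ[ℝ] ℝ} (hΛ : Avg θ L Λ) (h0 : 0 < θ)
    (h1 : θ < 1) (nw : ℕ → ℕ → ℝ) (old γ : ℕ → ℝ) (lo hi n : ℕ) (hlh : lo ≤ hi)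
    (hL : n + hi ≤ L) (hold : ∀ i, 0 ≤ old i) (hnw : ∀ T i, nw T i ≤ 1)
    (hγ : ∀ T, 0 ≤ γ T ∧ γ T ≤ 1) (e1 : ∀ T i, T < i + lo → nw T i = old i)
    (e2 : ∀ T i, i + hi ≤ T → nw T i = γ T) :
    Λ (fun T => ∑ i ∈ range n, θ⁻¹ ^ i * (nw T i - old i)) ≤ n * (θ ^ lo - θ ^ hi) +
      θ ^ hi * (∑ i ∈ range n, γ (i + hi) + 1 / (1 - θ) - ∑ i ∈ range n, old i) := by
  have hη := sub_pos.2 h1
  have hS : ∑ i ∈ range n, θ⁻¹ ^ i ≤ θ⁻¹ ^ n / (1 - θ) := by
    rw [le_div_iff₀ hη, mul_comm]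
    refine le_trans (mul_le_mul_of_nonneg_left ?_ hη.le) (geo h0 n)
    rw [sum_range_succ]
    exact le_add_of_nonneg_right (by positivity)
  refine (hΛ.mono _ (∑ i ∈ range n, (θ⁻¹ ^ i • (ind (i + lo) - ind (i + hi)) -
      (θ⁻¹ ^ i * old i) • ind (i + hi) +
      (θ⁻¹ ^ i / (1 - θ) * γ (i + hi)) • (ind (i + hi) - ind (i + hi + 1))) +
      (θ⁻¹ ^ n / (1 - θ)) • ind (n + hi)) fun T => ?_).trans_eq ?_
  · have a1 := shift_bound h0 h1 γ (fun T => (hγ T).1) hi T n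
    have a2 : (∑ i ∈ range n, θ⁻¹ ^ i) * (ind (n + hi) T * γ T) ≤
        θ⁻¹ ^ n / (1 - θ) * ind (n + hi) T := by
      have : 0 ≤ ind (n + hi) T := by unfold ind; split_ifs <;> norm_num
      exact mul_le_mul hS (mul_le_of_le_one_right this (hγ T).2) (mul_nonneg this (hγ T).1)
        (by positivity)
    have a3 : ∑ i ∈ range n, θ⁻¹ ^ i * (nw T i - old i) ≤ ∑ i ∈ range n,
        (θ⁻¹ ^ i * (ind (i + lo) T - ind (i + hi) T) - θ⁻¹ ^ i * old i * ind (i + hi) T +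
          θ⁻¹ ^ i * (ind (i + hi) T * γ T)) := by
      refine sum_le_sum fun i _ => ?_
      rw [mul_assoc, ← mul_sub, ← mul_add]
      refine mul_le_mul_of_nonneg_left ?_ (by positivity)
      unfold ind
      by_cases c1 : i + lo ≤ T
      · by_cases c2 : i + hi ≤ T
        · rw [e2 T i c2, if_pos c1, if_pos c2]; linarith
        · rw [if_pos c1, if_neg c2]; linarith [hnw T i, hold i]
      · rw [e1 T i (not_le.1 c1), if_neg c1, if_neg (by omega)]; linarith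
    simp only [Pi.add_apply, Finset.sum_apply, Pi.sub_apply, Pi.smul_apply, smul_eq_mul,
      sum_add_distrib] at a3 ⊢
    linarith
  · rw [map_add, map_sum, map_smul, hΛ.eq _ hL, sum_congr rfl (g := fun i =>
      (θ ^ lo - θ ^ hi) + θ ^ hi * γ (i + hi) - θ ^ hi * old i)]
    · rw [sum_sub_distrib, sum_add_distrib, ← mul_sum, ← mul_sum, sum_const, card_range,
        smul_eq_mul, div_mul_eq_mul_div, inv_mul_pow h0, nsmul_eq_mul]
      ring
    · intro i hi'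
      have := mem_range.1 hi'
      simp only [map_add, map_sub, map_smul, smul_eq_mul]
      rw [hΛ.eq _ (by omega : i + lo ≤ L), hΛ.eq _ (by omega : i + hi ≤ L),
        hΛ.eq _ (by omega : i + hi + 1 ≤ L), mul_sub, inv_mul_pow h0, inv_mul_pow h0,
        mul_right_comm, inv_mul_pow h0, pow_succ, ← inv_mul_pow h0 i hi]
      field_simp
      ring

theorem edge_bad {θ : ℝ} {L : ℕ} {Λ : (ℕ → ℝ) →ₗ[ℝ] ℝ} (hΛ : Avg θ L Λ) (h0 : 0 < θ)
    (d : ℕ → ℕ → ℝ) (p q : ℝ) (a b n : ℕ) (hp : 0 ≤ p) (hq : 0 ≤ q)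
    (hd : ∀ T i, d T i ≤ p * ind (i + a) T + q * ind (i + b) T) :
    Λ (fun T => ∑ i ∈ range n, θ⁻¹ ^ i * d T i) ≤ n * (p * θ ^ a + q * θ ^ b) := by
  refine (hΛ.mono _ (∑ i ∈ range n, ((θ⁻¹ ^ i * p) • ind (i + a) + (θ⁻¹ ^ i * q) • ind (i + b)))
    fun T => ?_).trans ?_
  · simp only [Pi.add_apply, Finset.sum_apply, Pi.smul_apply, smul_eq_mul]
    refine sum_le_sum fun i _ => ?_
    rw [mul_assoc, mul_assoc, ← mul_add]
    exact mul_le_mul_of_nonneg_left (hd T i) (by positivity)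
  · rw [map_sum, ← nsmul_eq_mul]
    refine (sum_le_card_nsmul _ _ (p * θ ^ a + q * θ ^ b) fun i _ => ?_).trans_eq (by simp)
    simp only [map_add, map_smul, smul_eq_mul]
    rw [← inv_mul_pow h0 i a, ← inv_mul_pow h0 i b]
    have c1 := mul_le_mul_of_nonneg_left (hΛ.le (i + a)) (by positivity : 0 ≤ θ⁻¹ ^ i * p)
    have c2 := mul_le_mul_of_nonneg_left (hΛ.le (i + b)) (by positivity : 0 ≤ θ⁻¹ ^ i * q)
    nlinarith

open Classical in
/-- The discrete metric. -/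
noncomputable def ne {A : Type} (a b : A) : ℝ := if a = b then 0 else 1

theorem ne_nonneg {A : Type} (a b : A) : 0 ≤ ne a b := by unfold ne; split_ifs <;> norm_num

theorem ne_le {A : Type} (a b : A) : ne a b ≤ 1 := by unfold ne; split_ifs <;> norm_num

theorem ne_self {A : Type} (a : A) : ne a a = 0 := if_pos rfl

theorem ne_tri {A : Type} (a b c : A) : ne a c ≤ ne a b + ne b c := by
  by_cases h : a = b
  · simp [h, ne_self]
  · have : ne a b = 1 := if_neg h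
    linarith [ne_le a c, ne_nonneg b c]

theorem cost_le {A : Type} {c : A → A → ℝ} (hc : ∀ a b, 0 ≤ c a b ∧ c a b ≤ 1) (a b a' b' : A) :
    c a b ≤ c a' b' + ne a a' + ne b b' ∧ c a' b' ≤ c a b + ne a a' + ne b b' := by
  have := hc a b
  have := hc a' b'
  by_cases h : a = a'
  · by_cases h' : b = b'
    · simp [h, h', ne_self]
    · have : ne b b' = 1 := if_neg h'
      constructor <;> linarith [ne_nonneg a a']
  · have : ne a a' = 1 := if_neg h
    constructor <;> linarith [ne_nonneg b b']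

/-- The number of changes in a column. -/
noncomputable def Fl {A : Type} (x : ℕ → A) (D : ℕ) : ℝ := ∑ j ∈ range D, ne (x j) (x (j + 1))

theorem Fl_nonneg {A : Type} (x : ℕ → A) (D : ℕ) : 0 ≤ Fl x D :=
  sum_nonneg fun _ _ => ne_nonneg _ _

theorem flips {A : Type} (x : ℕ → A) (D n r s S : ℕ) (h : n + r + s ≤ D) (hs : s ≤ S) :
    ∑ i ∈ range n, ne (x (i + r)) (x (i + r + s)) ≤ S * Fl x D := by
  refine le_trans ?_ (mul_le_mul_of_nonneg_right (Nat.cast_le.2 hs) (Fl_nonneg x D))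
  clear hs
  induction s with
  | zero => simp [ne_self]
  | succ s ih =>
    have h1 : ∑ i ∈ range n, ne (x (i + r + s)) (x (i + r + s + 1)) ≤ Fl x D := by
      obtain ⟨m, rfl⟩ : ∃ m, D = r + s + (n + m) := ⟨D - (r + s + n), by omega⟩
      rw [Fl, sum_range_add, sum_range_add _ n m]
      refine le_add_of_nonneg_of_le (sum_nonneg fun _ _ => ne_nonneg _ _)
        (le_add_of_le_of_nonneg (sum_congr rfl fun i _ => ?_).le
          (sum_nonneg fun _ _ => ne_nonneg _ _))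
      rw [show i + r + s = r + s + i by omega]
    refine (sum_le_sum fun i _ => ne_tri _ (x (i + r + s)) _).trans ?_
    rw [sum_add_distrib]
    push_cast
    have := ih (by omega)
    simp only [← add_assoc]
    linarith

theorem vertex {θ : ℝ} {L : ℕ} {Λ : (ℕ → ℝ) →ₗ[ℝ] ℝ} (hΛ : Avg θ L Λ) (h0 : 0 < θ) {A : Type}
    (x B : ℕ → A) (nw : ℕ → ℕ → A) (k D : ℕ) (hL : D + k ≤ L) (χ : ℝ)
    (hχ : ∀ j, ne (B (j + k)) (x (j + 1)) ≤ ne (x j) (x (j + 1)) + χ)
    (e1 : ∀ T j, j + k ≤ T → nw T j = B T) (e2 : ∀ T j, T < j + k → nw T j = x j) :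
    Λ (fun T => ∑ j ∈ range D, θ⁻¹ ^ j * (ne (nw T j) (nw T (j + 1)) - ne (x j) (x (j + 1)))) ≤
      D * (χ * (1 - θ) * θ ^ k) - θ * (θ ^ k * Fl x D) := by
  refine (hΛ.mono _ (∑ j ∈ range D, ((θ⁻¹ ^ j * χ) • (ind (j + k) - ind (j + k + 1)) -
    (θ⁻¹ ^ j * ne (x j) (x (j + 1))) • ind (j + k + 1))) fun T => ?_).trans_eq ?_
  · simp only [Finset.sum_apply, Pi.sub_apply, Pi.smul_apply, smul_eq_mul]
    refine sum_le_sum fun j _ => ?_
    rw [mul_assoc, mul_assoc, ← mul_sub]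
    refine mul_le_mul_of_nonneg_left ?_ (by positivity)
    unfold ind
    rcases lt_trichotomy T (j + k) with h | h | h
    · rw [e2 T j h, e2 T (j + 1) (by omega), if_neg (by omega), if_neg (by omega)]; linarith
    · rw [e1 T j h.ge, e2 T (j + 1) (by omega), if_pos h.ge, if_neg (by omega), h]
      linarith [hχ j]
    · rw [e1 T j h.le, e1 T (j + 1) (by omega), if_pos h.le, if_pos (by omega), ne_self]; linarith
  · rw [map_sum, sum_congr rfl (g := fun j =>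
      χ * (1 - θ) * θ ^ k - θ * (θ ^ k * ne (x j) (x (j + 1))))]
    · rw [sum_sub_distrib, sum_const, ← mul_sum, ← mul_sum, card_range, nsmul_eq_mul, Fl]
    · intro j hj
      have := mem_range.1 hj
      simp only [map_sub, map_smul, smul_eq_mul]
      rw [hΛ.eq _ (by omega : j + k ≤ L), hΛ.eq _ (by omega : j + k + 1 ≤ L), pow_succ,
        ← inv_mul_pow h0 j k]
      ring

theorem Deg.sum_le {V Ω : Type} {s : Ω → V} {Δ : ℕ} (hs : Deg s Δ) {E : Finset Ω} {N : Finset V}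
    (h : ∀ e ∈ E, s e ∈ N) (g : V → ℝ) (hg : ∀ x, 0 ≤ g x) :
    ∑ e ∈ E, g (s e) ≤ Δ * ∑ x ∈ N, g x := by
  classical
  rw [← sum_fiberwise_of_maps_to h, mul_sum]
  refine sum_le_sum fun x _ => ?_
  obtain ⟨I, hI, hm⟩ := hs x
  rw [sum_congr rfl (g := fun _ => g x) fun e he => by rw [(mem_filter.1 he).2], sum_const,
    nsmul_eq_mul]
  refine mul_le_mul_of_nonneg_right (Nat.cast_le.2 ((card_le_card fun e he => ?_).trans hI)) (hg x)
  exact (hm e).2 (mem_filter.1 he).2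

end Pool.Agent.MP_9c5a49_an.H23
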