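import Pool.Agent.MP_9c5a49_an.H98.KDefs

/-!
Uniform approximation on graphs of bounded degree: the statements.
-/

set_option autoImplicit false

namespace Pool.Agent.MP_9c5a49_an.H23

open Finset

/-- The fibres of `s` have at most `Δ` elements. -/
def Deg {V Ω : Type} (s : Ω → V) (Δ : ℕ) : Prop :=
  ∀ x, ∃ I : Finset Ω, I.card ≤ Δ ∧ ∀ e, e ∈ I ↔ s e = x

/-- For every finitely supported weight some labelling has average cost at most `m`. -/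
def Solv {V Ω A : Type} (s t : Ω → V) (c : Ω → A → A → ℝ) (m : ℝ) : Prop :=
  ∀ (E : Finset Ω) (w : Ω → ℝ), (∀ e, 0 ≤ w e) → ∃ b : V → A,
    ∑ e ∈ E, w e * (c e (b (s e)) (b (t e)) - m) ≤ 0

/-- One family of `n` labellings serves all finitely supported vertex weights up to the defect. -/
def LemB : Prop :=
  ∀ (Δ : ℕ) (γ : ℝ), 0 < γ → ∃ (C : ℝ) (n : ℕ), 0 ≤ C ∧ 0 < n ∧
    ∀ (V Ω A : Type) [Finite A] [Nonempty A] (s t : Ω → V), Deg s Δ → Deg t Δ →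
    ∀ (c : Ω → A → A → ℝ) (m : ℝ), (∀ e a b, 0 ≤ c e a b ∧ c e a b ≤ 1) → 0 ≤ m → m ≤ 1 →
    Solv s t c m → ∀ p q : Ω → ℝ, (∀ e, 0 ≤ p e ∧ p e ≤ 1) → (∀ e, 0 ≤ q e ∧ q e ≤ 1) →
    ∃ a : ℕ → V → A, ∀ (N : Finset V) (ν : V → ℝ) (E : Finset Ω), (∀ x, 0 ≤ ν x) →
      (∀ x, x ∉ N → ν x = 0) → (∀ e, s e ∈ N ∨ t e ∈ N → e ∈ E) →
      ∑ e ∈ E, p e * ν (s e) * ((∑ i ∈ range n, c e (a i (s e)) (a i (t e))) / n - m) ≤
        γ * ∑ x ∈ N, ν x + C * ∑ e ∈ E, |p e * ν (s e) - q e * ν (t e)|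

/-- A finite convex combination of labellings has cost at most `m + γ` on every edge. -/
def Approx : Prop :=
  ∀ (V Ω A : Type) [Finite A] [Nonempty A] (s t : Ω → V) (Δ : ℕ), Deg s Δ → Deg t Δ →
    ∀ (c : Ω → A → A → ℝ) (m : ℝ), (∀ e a b, 0 ≤ c e a b ∧ c e a b ≤ 1) → 0 ≤ m → m ≤ 1 →
    Solv s t c m → ∀ γ : ℝ, 0 < γ →
    ∃ (L : Finset (V → A)) (ω : (V → A) → ℝ), (∀ a, 0 ≤ ω a) ∧ ∑ a ∈ L, ω a = 1 ∧
      ∀ e, ∑ a ∈ L, ω a * c e (a (s e)) (a (t e)) ≤ m + γ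

/-- Local dimension reduction with additive error one. -/
def LocJL.{u} : Prop :=
  ∀ (X : Type) [MetricSpace X], H98.BddGeom X →
    ∀ (H : Type u) [NormedAddCommGroup H] [InnerProductSpace ℝ H] (F : X → H) (R B : ℝ),
    (∀ x y, dist x y ≤ R → ‖F x - F y‖ ≤ B) →
    ∃ (D : ℕ) (f : X → EuclideanSpace ℝ (Fin D)), ∀ x y, dist x y ≤ R →
      ‖F x - F y‖ - 1 ≤ ‖f x - f y‖ ∧ ‖f x - f y‖ ≤ ‖F x - F y‖ + 1

end Pool.Agent.MP_9c5a49_an.H23
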